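import Mathlib

/-! # A dyadic combinatorial bound for the degree of circle maps -/

set_option autoImplicit false

open Finset

namespace Pool.Agent.Q74.Gap

/-- The circle `ℝ/ℤ`. -/
abbrev T1 := AddCircle (1 : ℝ)

/-- The representative in `(-1/2,1/2]`. -/
noncomputable def rep (a : T1) : ℝ := (AddCircle.equivIoc (1 : ℝ) (-(1 / 2)) a : ℝ)

theorem coe_rep (a : T1) : ((rep a : ℝ) : T1) = a := AddCircle.coe_equivIoc

theorem abs_rep_le (a : T1) : |rep a| ≤ 1 / 2 := by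
  have h := (AddCircle.equivIoc (1 : ℝ) (-(1 / 2)) a).2
  rw [abs_le]
  have h1 : rep a = (AddCircle.equivIoc (1 : ℝ) (-(1 / 2)) a : ℝ) := rfl
  rw [← h1] at h
  constructor <;> linarith [h.1, h.2]

theorem abs_rep (a : T1) : |rep a| = ‖a‖ := by
  have h1 : ‖((rep a : ℝ) : T1)‖ = |rep a| := by
    rw [AddCircle.norm_coe_eq_abs_iff (1 : ℝ) one_ne_zero, abs_one]
    exact abs_rep_le a
  rw [← h1, coe_rep]

theorem rep_eq {x : ℝ} (hx : |x| < 1 / 2) : rep (x : T1) = x := by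
  have h1 : |rep (x : T1) - x| < 1 := by
    have h2 := abs_rep_le (x : T1)
    calc |rep (x : T1) - x| ≤ |rep (x : T1)| + |x| := abs_sub _ _
      _ < 1 := by linarith
  have h3 : ((rep (x : T1) - x : ℝ) : T1) = 0 := by
    rw [AddCircle.coe_sub, coe_rep, sub_self]
  obtain ⟨n, hn⟩ := (AddCircle.coe_eq_zero_iff (1 : ℝ)).1 h3
  rw [zsmul_eq_mul, mul_one] at hn
  rw [← hn] at h1
  have h4 : n = 0 := by
    have : |n| < 1 := by exact_mod_cast h1
    rwa [Int.abs_lt_one_iff] at this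
  rw [h4, Int.cast_zero] at hn
  linarith

/-- The short signed increment from `a` to `b`. -/
noncomputable def dl (a b : T1) : ℝ := rep (b - a)

theorem abs_dl (a b : T1) : |dl a b| = ‖b - a‖ := abs_rep _

theorem abs_dl_le (a b : T1) : |dl a b| ≤ 1 / 2 := abs_rep_le _

theorem coe_dl (a b : T1) : ((dl a b : ℝ) : T1) = b - a := coe_rep _

theorem int_of_coe_eq_zero {x : ℝ} (h : (x : T1) = 0) : ∃ n : ℤ, x = n := by
  obtain ⟨n, hn⟩ := (AddCircle.coe_eq_zero_iff (1 : ℝ)).1 h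
  exact ⟨n, by rw [← hn]; simp⟩

theorem abs_int_lt_one {x : ℝ} (h : (x : T1) = 0) (hx : |x| < 1) : x = 0 := by
  obtain ⟨n, rfl⟩ := int_of_coe_eq_zero h
  have : |n| < 1 := by exact_mod_cast hx
  rw [Int.abs_lt_one_iff] at this
  rw [this, Int.cast_zero]

theorem abs_int_le_two {x : ℝ} (h : (x : T1) = 0) (hx : |x| < 3) : |x| ≤ 2 := by
  obtain ⟨n, rfl⟩ := int_of_coe_eq_zero h
  have : |n| < 3 := by exact_mod_cast hx
  have : |n| ≤ 2 := by omega
  exact_mod_cast this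

theorem sum_range_two_mul {M : Type*} [AddCommMonoid M] (F : ℕ → M) (n : ℕ) :
    ∑ j ∈ range (2 * n), F j = ∑ i ∈ range n, (F (2 * i) + F (2 * i + 1)) := by
  induction n with
  | zero => simp
  | succ n ih =>
    rw [show 2 * (n + 1) = 2 * n + 1 + 1 by ring, sum_range_succ, sum_range_succ, ih, sum_range_succ, add_assoc]

theorem sum_shift {F : ℕ → ℝ} {N : ℕ} (hF : F N = F 0) :
    ∑ i ∈ range N, F (i + 1) = ∑ i ∈ range N, F i := by
  have h := sum_range_succ' F N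
  have h2 := sum_range_succ F N
  linarith

/-- The winding number of a cell. -/
theorem cell_bound (a b a1 a2 b1 : T1) (ea eb ea1 ea2 eb1 : ℝ) (h1 : 0 ≤ ea) (h2 : 0 ≤ eb) (h3 : 0 ≤ ea1)
    (h4 : 0 ≤ ea2) (h5 : 0 ≤ eb1)
    (k1 : ea < 1 / 2 → ea1 < 1 / 2 → ‖a1 - a‖ < 1 / 5) (k2 : ea1 < 1 / 2 → ea2 < 1 / 2 → ‖a2 - a1‖ < 1 / 5)
    (k3 : ea2 < 1 / 2 → eb1 < 1 / 2 → ‖b1 - a2‖ < 1 / 5) (k4 : eb < 1 / 2 → eb1 < 1 / 2 → ‖b1 - b‖ < 1 / 5)
    (k5 : ea < 1 / 2 → eb < 1 / 2 → ‖b - a‖ < 1 / 5) :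
    |dl a a1 + (dl a1 a2 + dl a2 b1) - dl b b1 - dl a b| ≤ 4 * (ea + eb + (ea1 + ea2) + eb1) := by
  have hz : ((dl a a1 + (dl a1 a2 + dl a2 b1) - dl b b1 - dl a b : ℝ) : T1) = 0 := by
    simp only [AddCircle.coe_sub, AddCircle.coe_add, coe_dl]
    abel
  have tri : |dl a a1 + (dl a1 a2 + dl a2 b1) - dl b b1 - dl a b| ≤
      |dl a a1| + |dl a1 a2| + |dl a2 b1| + |dl b b1| + |dl a b| := by
    rw [abs_le]
    have q1 := abs_le.1 (le_refl |dl a a1|)
    have q2 := abs_le.1 (le_refl |dl a1 a2|)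
    have q3 := abs_le.1 (le_refl |dl a2 b1|)
    have q4 := abs_le.1 (le_refl |dl b b1|)
    have q5 := abs_le.1 (le_refl |dl a b|)
    constructor <;> linarith [q1.1, q1.2, q2.1, q2.2, q3.1, q3.2, q4.1, q4.2, q5.1, q5.2]
  by_cases hgood : ea < 1 / 2 ∧ eb < 1 / 2 ∧ ea1 < 1 / 2 ∧ ea2 < 1 / 2 ∧ eb1 < 1 / 2
  · obtain ⟨g1, g2, g3, g4, g5⟩ := hgood
    have q1 := k1 g1 g3
    have q2 := k2 g3 g4
    have q3 := k3 g4 g5
    have q4 := k4 g2 g5
    have q5 := k5 g1 g2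
    rw [← abs_dl] at q1 q2 q3 q4 q5
    rw [abs_int_lt_one hz (by linarith), abs_zero]
    positivity
  · have hle : |dl a a1 + (dl a1 a2 + dl a2 b1) - dl b b1 - dl a b| ≤ 2 := by
      refine abs_int_le_two hz ?_
      have p1 := abs_dl_le a a1
      have p2 := abs_dl_le a1 a2
      have p3 := abs_dl_le a2 b1
      have p4 := abs_dl_le b b1
      have p5 := abs_dl_le a b
      linarith
    have : 1 / 2 ≤ ea + eb + (ea1 + ea2) + eb1 := by
      by_contra hcon
      push Not at hcon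
      exact hgood ⟨by linarith, by linarith, by linarith, by linarith, by linarith⟩
    linarith

theorem comb_bound (v : ℕ → ℕ → T1) (e : ℕ → ℕ → ℝ) (he : ∀ m i, 0 ≤ e m i)
    (hv : ∀ m i, v m (i + 2 ^ m) = v m i) (hee : ∀ m i, e m (i + 2 ^ m) = e m i)
    (hadj : ∀ m i, e m i < 1 / 2 → e m (i + 1) < 1 / 2 → ‖v m (i + 1) - v m i‖ < 1 / 5)
    (hch : ∀ m i, e m i < 1 / 2 → e (m + 1) (2 * i) < 1 / 2 → ‖v (m + 1) (2 * i) - v m i‖ < 1 / 5)
    (n : ℕ) (hn : 2 ≤ n) :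
    |∑ i ∈ range (2 ^ n), dl (v n i) (v n (i + 1))| ≤
      16 * ∑ m ∈ Icc 2 n, ∑ i ∈ range (2 ^ m), e m i := by
  set S : ℕ → ℝ := fun m => ∑ i ∈ range (2 ^ m), dl (v m i) (v m (i + 1)) with hS
  set E : ℕ → ℝ := fun m => ∑ i ∈ range (2 ^ m), e m i with hE
  have hE0 : ∀ m, 0 ≤ E m := fun m => sum_nonneg fun i _ => he m i
  have hv0 : ∀ m, v m (2 ^ m) = v m 0 := fun m => by have := hv m 0; rwa [zero_add] at this
  have he0 : ∀ m, e m (2 ^ m) = e m 0 := fun m => by have := hee m 0; rwa [zero_add] at this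
  -- one step
  have hstep : ∀ m, |S (m + 1) - S m| ≤ 8 * (E m + E (m + 1)) := by
    intro m
    have h1 : S (m + 1) = ∑ i ∈ range (2 ^ m), (dl (v (m + 1) (2 * i)) (v (m + 1) (2 * i + 1)) +
        dl (v (m + 1) (2 * i + 1)) (v (m + 1) (2 * (i + 1)))) := by
      simp only [hS]
      rw [pow_succ, mul_comm (2 ^ m) 2, sum_range_two_mul]
      rfl
    have h2 : ∑ i ∈ range (2 ^ m), (dl (v m i) (v (m + 1) (2 * i)) -
        dl (v m (i + 1)) (v (m + 1) (2 * (i + 1)))) = 0 := by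
      have h3 := sum_shift (F := fun i => dl (v m i) (v (m + 1) (2 * i))) (N := 2 ^ m) (by
        show dl (v m (2 ^ m)) (v (m + 1) (2 * 2 ^ m)) = dl (v m 0) (v (m + 1) (2 * 0))
        rw [hv0, mul_comm 2 (2 ^ m), ← pow_succ, hv0, mul_zero])
      rw [sum_sub_distrib, h3, sub_self]
    have h4 : S (m + 1) - S m = ∑ i ∈ range (2 ^ m),
        (dl (v m i) (v (m + 1) (2 * i)) + (dl (v (m + 1) (2 * i)) (v (m + 1) (2 * i + 1)) +
          dl (v (m + 1) (2 * i + 1)) (v (m + 1) (2 * (i + 1)))) -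
          dl (v m (i + 1)) (v (m + 1) (2 * (i + 1))) - dl (v m i) (v m (i + 1))) := by
      have h5 : S (m + 1) - S m = S (m + 1) - S m + 0 := by ring
      rw [h5, ← h2, h1]
      simp only [hS]
      rw [← sum_sub_distrib, ← sum_add_distrib]
      refine sum_congr rfl fun i _ => ?_
      ring
    rw [h4]
    refine (abs_sum_le_sum_abs _ _).trans ?_
    have h6 : ∀ i ∈ range (2 ^ m),
        |dl (v m i) (v (m + 1) (2 * i)) + (dl (v (m + 1) (2 * i)) (v (m + 1) (2 * i + 1)) +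
          dl (v (m + 1) (2 * i + 1)) (v (m + 1) (2 * (i + 1)))) -
          dl (v m (i + 1)) (v (m + 1) (2 * (i + 1))) - dl (v m i) (v m (i + 1))| ≤
        4 * (e m i + e m (i + 1) + (e (m + 1) (2 * i) + e (m + 1) (2 * i + 1)) + e (m + 1) (2 * (i + 1))) := by
      intro i _
      exact cell_bound _ _ _ _ _ _ _ _ _ _ (he _ _) (he _ _) (he _ _) (he _ _) (he _ _) (hch m i)
        (hadj (m + 1) (2 * i)) (hadj (m + 1) (2 * i + 1)) (hch m (i + 1)) (hadj m i)
    refine (sum_le_sum h6).trans ?_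
    rw [← mul_sum, sum_add_distrib, sum_add_distrib, sum_add_distrib]
    have h7 : ∑ i ∈ range (2 ^ m), e m (i + 1) = E m := sum_shift (he0 m)
    have h8 : ∑ i ∈ range (2 ^ m), (e (m + 1) (2 * i) + e (m + 1) (2 * i + 1)) = E (m + 1) := by
      simp only [hE]
      rw [pow_succ, mul_comm (2 ^ m) 2, sum_range_two_mul]
    have h9 : ∑ i ∈ range (2 ^ m), e (m + 1) (2 * (i + 1)) ≤ E (m + 1) := by
      have h10 := sum_shift (F := fun i => e (m + 1) (2 * i)) (N := 2 ^ m) (by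
        show e (m + 1) (2 * 2 ^ m) = e (m + 1) (2 * 0)
        rw [mul_comm 2 (2 ^ m), ← pow_succ, he0, mul_zero])
      rw [h10, ← h8]
      exact sum_le_sum fun i _ => by linarith [he (m + 1) (2 * i + 1)]
    rw [h7, h8]
    linarith [hE0 m, hE0 (m + 1)]
  -- the first generation
  have hS2 : |S 2| ≤ 4 * E 2 := by
    have hz : ((S 2 : ℝ) : T1) = 0 := by
      have : S 2 = dl (v 2 0) (v 2 1) + dl (v 2 1) (v 2 2) + dl (v 2 2) (v 2 3) + dl (v 2 3) (v 2 4) := by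
        simp only [hS]
        rw [show (2 : ℕ) ^ 2 = 4 by norm_num]
        simp only [sum_range_succ, sum_range_zero, zero_add]
      rw [this]
      simp only [AddCircle.coe_add, coe_dl]
      have h4 : v 2 4 = v 2 0 := hv0 2
      rw [h4]
      abel
    by_cases hgood : ∀ i ∈ range (2 ^ 2), e 2 i < 1 / 2
    · have h1 : ∀ i ∈ range (2 ^ 2), |dl (v 2 i) (v 2 (i + 1))| < 1 / 5 := by
        intro i hi
        rw [abs_dl]
        refine hadj 2 i (hgood i hi) ?_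
        have hi4 : i < 2 ^ 2 := mem_range.1 hi
        rcases Nat.lt_or_ge (i + 1) (2 ^ 2) with h | h
        · exact hgood _ (mem_range.2 h)
        · have : i + 1 = 2 ^ 2 := by omega
          rw [this, he0]
          exact hgood 0 (by simp)
      have h2 : |S 2| < 1 := by
        calc |S 2| ≤ ∑ i ∈ range (2 ^ 2), |dl (v 2 i) (v 2 (i + 1))| := abs_sum_le_sum_abs _ _
          _ ≤ ∑ i ∈ range (2 ^ 2), (1 / 5 : ℝ) := sum_le_sum fun i hi => (h1 i hi).le
          _ < 1 := by norm_num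
      rw [abs_int_lt_one hz h2, abs_zero]
      have := hE0 2
      positivity
    · push Not at hgood
      obtain ⟨j, hj, hej⟩ := hgood
      have h1 : |S 2| ≤ 2 := by
        calc |S 2| ≤ ∑ i ∈ range (2 ^ 2), |dl (v 2 i) (v 2 (i + 1))| := abs_sum_le_sum_abs _ _
          _ ≤ ∑ i ∈ range (2 ^ 2), (1 / 2 : ℝ) := sum_le_sum fun i hi => abs_dl_le _ _
          _ = 2 := by norm_num
      have h2 : e 2 j ≤ E 2 := single_le_sum (fun i _ => he 2 i) hj
      linarith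
  -- induction
  have hind : ∀ n, 2 ≤ n → |S n| + 8 * E n ≤ 16 * ∑ m ∈ Icc 2 n, E m := by
    intro n hn
    induction n, hn using Nat.le_induction with
    | base =>
      rw [Icc_self, sum_singleton]
      linarith [hE0 2]
    | succ n hn ih =>
      have hIcc : Icc 2 (n + 1) = insert (n + 1) (Icc 2 n) := by
        ext k
        simp only [mem_Icc, mem_insert]
        omega
      rw [hIcc, sum_insert (by simp)]
      have h1 := hstep n
      have h2 : |S (n + 1)| ≤ |S (n + 1) - S n| + |S n| := by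
        calc |S (n + 1)| = |(S (n + 1) - S n) + S n| := by rw [sub_add_cancel]
          _ ≤ _ := abs_add_le _ _
      linarith [hE0 n, hE0 (n + 1)]
  have := hind n hn
  have h2 := hE0 n
  linarith

end Pool.Agent.Q74.Gap
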