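import Mathlib
import Pool.Agent.Q74.Gap.Comb

/-! # The gap estimate at a fixed scale for circle valued maps -/

set_option autoImplicit false

open MeasureTheory Set Filter Topology
open scoped ENNReal

namespace Pool.Agent.Q74.Gap

section
variable (h : ℝ → T1)

/-- The bad set of `x`. -/
def bad (x : ℝ) : Set ℝ := {y | 1 / 10 ≤ ‖h x - h y‖}

/-- dyadic intervals -/
def Id (m i : ℕ) : Set ℝ := Ico ((i : ℝ) / 2 ^ m) (((i : ℝ) + 1) / 2 ^ m)

/-- enlarged dyadic intervals -/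
def Jd (m i : ℕ) : Set ℝ := Icc (((i : ℝ) - 1) / 2 ^ m) (((i : ℝ) + 2) / 2 ^ m)

/-- bad pairs -/
noncomputable def Ad (m i : ℕ) : ℝ≥0∞ := ∫⁻ x in Id m i, volume (Jd m i ∩ bad h x)

/-- normalised bad pairs -/
noncomputable def ed (m i : ℕ) : ℝ := (ENNReal.ofReal (4 ^ m) * Ad h m (i % 2 ^ m)).toReal

/-- the kernel -/
noncomputable def kern (x y : ℝ) : ℝ≥0∞ :=
  if |x - y| ≤ 1 / 2 ∧ 1 / 10 ≤ ‖h x - h y‖ then ENNReal.ofReal (1 / |x - y| ^ 2) else 0

end

section
variable {h : ℝ → T1} (hc : Continuous h)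
include hc

theorem measurableSet_bad (x : ℝ) : MeasurableSet (bad h x) :=
  (isClosed_le continuous_const (continuous_const.sub hc).norm).measurableSet

theorem measurableSet_badPairs : MeasurableSet {p : ℝ × ℝ | 1 / 10 ≤ ‖h p.1 - h p.2‖} :=
  (isClosed_le continuous_const ((hc.comp continuous_fst).sub (hc.comp continuous_snd)).norm).measurableSet

theorem measurable_vol (J : Set ℝ) (hJ : MeasurableSet J) : Measurable fun x => volume (J ∩ bad h x) := by
  have h1 : MeasurableSet {p : ℝ × ℝ | p.2 ∈ J ∧ 1 / 10 ≤ ‖h p.1 - h p.2‖} :=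
    (measurable_snd hJ).inter (measurableSet_badPairs hc)
  exact measurable_measure_prodMk_left h1

theorem measurableSet_Jd (m i : ℕ) : MeasurableSet (Jd m i) := measurableSet_Icc

omit hc in
theorem volume_Id (m i : ℕ) : volume (Id m i) = ENNReal.ofReal (1 / 2 ^ m) := by
  rw [Id, Real.volume_Ico]
  congr 1
  ring

omit hc in
theorem volume_Jd (m i : ℕ) : volume (Jd m i) = ENNReal.ofReal (3 / 2 ^ m) := by
  rw [Jd, Real.volume_Icc]
  congr 1
  ring

omit hc in
theorem Ad_lt_top (m i : ℕ) : Ad h m i ≠ ⊤ := by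
  refine ne_of_lt ?_
  calc Ad h m i ≤ ∫⁻ _ in Id m i, volume (Jd m i) := lintegral_mono fun x => measure_mono inter_subset_left
    _ = volume (Jd m i) * volume (Id m i) := setLIntegral_const _ _
    _ < ⊤ := by
      rw [volume_Id, volume_Jd]
      exact ENNReal.mul_lt_top ENNReal.ofReal_lt_top ENNReal.ofReal_lt_top

omit hc in
theorem ofReal_ed (m i : ℕ) : ENNReal.ofReal (ed h m i) = ENNReal.ofReal (4 ^ m) * Ad h m (i % 2 ^ m) := by
  rw [ed, ENNReal.ofReal_toReal]
  exact ENNReal.mul_ne_top ENNReal.ofReal_ne_top (Ad_lt_top _ _)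

omit hc in
theorem ed_nonneg (m i : ℕ) : 0 ≤ ed h m i := ENNReal.toReal_nonneg

omit hc in
theorem ed_periodic (m i : ℕ) : ed h m (i + 2 ^ m) = ed h m i := by
  unfold ed
  rw [Nat.add_mod_right]

theorem exists_base (m i : ℕ) :
    ∃ x ∈ Id m i, volume (Jd m i ∩ bad h x) ≤ ENNReal.ofReal (2 ^ m) * Ad h m i := by
  have h1 : volume (Id m i) ≠ 0 := by
    rw [volume_Id]
    simp
  obtain ⟨x, hx, hle⟩ := exists_le_setLAverage (μ := volume) (s := Id m i)
    (f := fun x => volume (Jd m i ∩ bad h x)) h1 (by rw [volume_Id]; exact ENNReal.ofReal_ne_top)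
    (measurable_vol hc _ (measurableSet_Jd hc m i)).aemeasurable
  refine ⟨x, hx, hle.trans (le_of_eq ?_)⟩
  rw [setLAverage_eq, volume_Id, ENNReal.div_eq_inv_mul, ← ENNReal.ofReal_inv_of_pos (by positivity), one_div,
    inv_inv]
  rfl

theorem exists_point (hper : ∀ t, h (t + 1) = h t) :
    ∃ v : ℕ → ℕ → T1, (∀ m i : ℕ, v m (i + 2 ^ m) = v m i) ∧
      ∀ m i : ℕ, ∃ x : ℝ, x ∈ Icc ((i : ℝ) / 2 ^ m) (((i : ℝ) + 1) / 2 ^ m) ∧ h x = v m i ∧
        volume (Jd m i ∩ bad h x) ≤ ENNReal.ofReal (ed h m i / 2 ^ m) := by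
  choose x0 hx0 hle using fun m i => exists_base hc m i
  have hperq : ∀ (q : ℕ) (t : ℝ), h (t + q) = h t := by
    intro q t
    induction q with
    | zero => simp
    | succ q ih => rw [Nat.cast_succ, ← add_assoc, hper, ih]
  refine ⟨fun m i => h (x0 m (i % 2 ^ m)), fun m i => by simp only [Nat.add_mod_right], fun m i => ?_⟩
  set i0 := i % 2 ^ m with hi0
  set q := i / 2 ^ m with hq
  have hi : (i : ℝ) = i0 + q * 2 ^ m := by
    have := Nat.mod_add_div i (2 ^ m)
    rw [← hi0, ← hq] at this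
    have h2 : ((i0 + 2 ^ m * q : ℕ) : ℝ) = i := by rw [this]
    push_cast at h2
    linarith
  have hp : (0 : ℝ) < 2 ^ m := by positivity
  refine ⟨x0 m i0 + q, ?_, hperq q _, ?_⟩
  · have h1 := hx0 m i0
    rw [Id, mem_Ico, div_le_iff₀ hp, lt_div_iff₀ hp] at h1
    rw [mem_Icc, div_le_iff₀ hp, le_div_iff₀ hp]
    constructor <;> nlinarith [h1.1, h1.2]
  · have htr : Jd m i ∩ bad h (x0 m i0 + q) = (fun t : ℝ => t - q) ⁻¹' (Jd m i0 ∩ bad h (x0 m i0)) := by
      ext t
      simp only [mem_inter_iff, mem_preimage]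
      have e1 : t ∈ Jd m i ↔ t - q ∈ Jd m i0 := by
        rw [Jd, Jd, mem_Icc, mem_Icc, div_le_iff₀ hp, le_div_iff₀ hp, div_le_iff₀ hp, le_div_iff₀ hp, hi]
        constructor
        · rintro ⟨a, b⟩; constructor <;> nlinarith
        · rintro ⟨a, b⟩; constructor <;> nlinarith
      have e2 : t ∈ bad h (x0 m i0 + q) ↔ t - q ∈ bad h (x0 m i0) := by
        have := hperq q (t - q)
        rw [sub_add_cancel] at this
        simp only [bad, mem_ofPred_eq]
        rw [hperq, this]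
      rw [e1, e2]
    rw [htr]
    have hmp : MeasurePreserving (fun t : ℝ => t - q) volume volume := measurePreserving_sub_right volume _
    rw [hmp.measure_preimage (((measurableSet_Jd hc m i0).inter (measurableSet_bad hc _)).nullMeasurableSet)]
    refine (hle m i0).trans (le_of_eq ?_)
    rw [div_eq_mul_inv, mul_comm (ed h m i), ENNReal.ofReal_mul (by positivity), ofReal_ed, ← hi0,
      ← mul_assoc, ← ENNReal.ofReal_mul (by positivity)]
    congr 2
    have : (4 : ℝ) ^ m = 2 ^ m * 2 ^ m := by rw [← mul_pow]; norm_num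
    rw [this]
    field_simp

omit hc in
theorem close_of_measure {x x' : ℝ} {J J' K : Set ℝ} (hK : K ⊆ J) (hK' : K ⊆ J')
    (hlt : volume (J ∩ bad h x) + volume (J' ∩ bad h x') < volume K) : ‖h x' - h x‖ < 1 / 5 := by
  have h1 : ∃ y ∈ K, y ∉ bad h x ∧ y ∉ bad h x' := by
    by_contra hcon
    push Not at hcon
    have h2 : K ⊆ (J ∩ bad h x) ∪ (J' ∩ bad h x') := by
      intro y hy
      by_cases hb : y ∈ bad h x
      · exact Or.inl ⟨hK hy, hb⟩
      · exact Or.inr ⟨hK' hy, hcon y hy hb⟩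
    have h3 := (measure_mono h2).trans (measure_union_le (μ := volume) _ _)
    exact absurd h3 (not_le.2 hlt)
  obtain ⟨y, -, hy1, hy2⟩ := h1
  simp only [bad, mem_ofPred_eq, not_le] at hy1 hy2
  calc ‖h x' - h x‖ = ‖(h x' - h y) - (h x - h y)‖ := by congr 1; abel
    _ ≤ ‖h x' - h y‖ + ‖h x - h y‖ := norm_sub_le _ _
    _ < 1 / 5 := by linarith

theorem comb_dyadic (hper : ∀ t, h (t + 1) = h t) :
    ∃ v : ℕ → ℕ → T1, (∀ m i : ℕ, v m (i + 2 ^ m) = v m i) ∧
      (∀ m i : ℕ, ∃ x : ℝ, x ∈ Icc ((i : ℝ) / 2 ^ m) (((i : ℝ) + 1) / 2 ^ m) ∧ h x = v m i) ∧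
      ∀ n, 2 ≤ n → |∑ i ∈ Finset.range (2 ^ n), dl (v n i) (v n (i + 1))| ≤
        16 * ∑ m ∈ Finset.Icc 2 n, ∑ i ∈ Finset.range (2 ^ m), ed h m i := by
  obtain ⟨v, hv, hx⟩ := exists_point hc hper
  refine ⟨v, hv, fun m i => ?_, fun n hn => ?_⟩
  · obtain ⟨x, h1, h2, -⟩ := hx m i
    exact ⟨x, h1, h2⟩
  · refine comb_bound v (ed h) ed_nonneg hv ed_periodic (fun m i h1 h2 => ?_) (fun m i h1 h2 => ?_) n hn
    · obtain ⟨x, -, hx1, hx2⟩ := hx m i
      obtain ⟨x', -, hx1', hx2'⟩ := hx m (i + 1)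
      rw [← hx1, ← hx1']
      have hp : (0 : ℝ) < 2 ^ m := by positivity
      refine close_of_measure (J := Jd m i) (J' := Jd m (i + 1)) (K := Icc ((i : ℝ) / 2 ^ m) (((i : ℝ) + 2) / 2 ^ m))
        ?_ ?_ ?_
      · refine Icc_subset_Icc ?_ le_rfl
        gcongr
        linarith
      · rw [Jd]
        push_cast
        refine Icc_subset_Icc ?_ ?_
        · gcongr; linarith
        · gcongr; linarith
      · refine (add_le_add hx2 hx2').trans_lt ?_
        rw [Real.volume_Icc, ← ENNReal.ofReal_add (div_nonneg (ed_nonneg _ _) hp.le)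
          (div_nonneg (ed_nonneg _ _) hp.le)]
        rw [ENNReal.ofReal_lt_ofReal_iff (by
          rw [← sub_div]; refine div_pos ?_ hp; linarith), ← sub_div, ← add_div]
        gcongr
        linarith
    · obtain ⟨x, -, hx1, hx2⟩ := hx m i
      obtain ⟨x', -, hx1', hx2'⟩ := hx (m + 1) (2 * i)
      rw [← hx1, ← hx1']
      have hp : (0 : ℝ) < 2 ^ m := by positivity
      have hp2 : (2 : ℝ) ^ (m + 1) = 2 * 2 ^ m := by ring
      refine close_of_measure (J := Jd m i) (J' := Jd (m + 1) (2 * i)) (K := Jd (m + 1) (2 * i)) ?_ le_rfl ?_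
      · rw [Jd, Jd]
        push_cast
        rw [hp2]
        refine Icc_subset_Icc ?_ ?_
        · rw [div_le_div_iff₀ hp (by positivity)]; nlinarith
        · rw [div_le_div_iff₀ (by positivity) hp]; nlinarith
      · refine (add_le_add hx2 hx2').trans_lt ?_
        rw [volume_Jd, ← ENNReal.ofReal_add (div_nonneg (ed_nonneg _ _) hp.le)
          (div_nonneg (ed_nonneg _ _) (by positivity))]
        rw [ENNReal.ofReal_lt_ofReal_iff (by positivity), hp2]
        rw [div_add_div _ _ (by positivity) (by positivity), div_lt_div_iff₀ (by positivity) (by positivity)]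
        have h3 := ed_nonneg (h := h) m i
        have h4 := ed_nonneg (h := h) (m + 1) (2 * i)
        have h5 : ed h m i * (2 * 2 ^ m) + 2 ^ m * ed h (m + 1) (2 * i) < 3 * 2 ^ m / 2 * 1 := by nlinarith
        have h6 : (0:ℝ) < 2 ^ m * 2 ^ m := by positivity
        nlinarith

end

/-- The geometric sum bound. -/
theorem geo_bound {t : ℝ} (ht : 0 < t) (n : ℕ) :
    ∑ m ∈ Finset.Icc 2 n, (if t ≤ 2 / 2 ^ m then (4 : ℝ) ^ m else 0) ≤
      if t ≤ 1 / 2 then 16 / 3 * (1 / t ^ 2) else 0 := by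
  split_ifs with h0
  · have hgeo : ∀ n : ℕ, ∑ m ∈ Finset.Icc 2 n, (4 : ℝ) ^ m ≤ 4 / 3 * 4 ^ n := by
      intro n
      induction n with
      | zero => rw [Finset.Icc_eq_empty (by omega), Finset.sum_empty]; positivity
      | succ n ih =>
        rcases Nat.lt_or_ge (n + 1) 2 with h | h
        · rw [Finset.Icc_eq_empty (by omega), Finset.sum_empty]; positivity
        · have hIcc : Finset.Icc 2 (n + 1) = insert (n + 1) (Finset.Icc 2 n) := by
            ext k
            simp only [Finset.mem_Icc, Finset.mem_insert]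
            omega
          rw [hIcc, Finset.sum_insert (by simp), pow_succ]
          linarith
    induction n with
    | zero => rw [Finset.Icc_eq_empty (by omega), Finset.sum_empty]; positivity
    | succ n ih =>
      rcases Nat.lt_or_ge (n + 1) 2 with h | h
      · rw [Finset.Icc_eq_empty (by omega), Finset.sum_empty]; positivity
      · by_cases h1 : t ≤ 2 / 2 ^ (n + 1)
        · calc ∑ m ∈ Finset.Icc 2 (n + 1), (if t ≤ 2 / 2 ^ m then (4 : ℝ) ^ m else 0) ≤
              ∑ m ∈ Finset.Icc 2 (n + 1), (4 : ℝ) ^ m := Finset.sum_le_sum fun m _ => by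
                split_ifs
                · exact le_rfl
                · positivity
            _ ≤ 4 / 3 * 4 ^ (n + 1) := hgeo _
            _ ≤ 4 / 3 * (4 / t ^ 2) := by
                gcongr
                rw [le_div_iff₀ (by positivity)]
                rw [le_div_iff₀ (by positivity)] at h1
                calc (4 : ℝ) ^ (n + 1) * t ^ 2 = (t * 2 ^ (n + 1)) ^ 2 := by
                      rw [mul_pow, ← pow_mul, mul_comm (n + 1) 2, pow_mul]; norm_num; ring
                  _ ≤ 2 ^ 2 := by gcongr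
                  _ = 4 := by norm_num
            _ = _ := by ring
        · have hIcc : Finset.Icc 2 (n + 1) = insert (n + 1) (Finset.Icc 2 n) := by
            ext k
            simp only [Finset.mem_Icc, Finset.mem_insert]
            omega
          rw [hIcc, Finset.sum_insert (by simp), if_neg h1, zero_add]
          exact ih
  · refine le_of_eq (Finset.sum_eq_zero fun m hm => ?_)
    rw [if_neg]
    intro h1
    apply h0
    refine h1.trans ?_
    have : (2 : ℝ) ^ 2 ≤ 2 ^ m := pow_le_pow_right₀ (by norm_num) (Finset.mem_Icc.1 hm).1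
    rw [div_le_div_iff₀ (by positivity) (by norm_num)]
    linarith

section
variable {h : ℝ → T1} (hc : Continuous h)
include hc

/-- The energy bound. -/
theorem energy_bound (n : ℕ) :
    ENNReal.ofReal (∑ m ∈ Finset.Icc 2 n, ∑ i ∈ Finset.range (2 ^ m), ed h m i) ≤
      ENNReal.ofReal (16 / 3) * ∫⁻ x in Ico (0 : ℝ) 1, ∫⁻ y, kern h x y := by
  have hφm : ∀ m : ℕ, Measurable fun p : ℝ × ℝ =>
      {p : ℝ × ℝ | |p.1 - p.2| ≤ 2 / 2 ^ m ∧ 1 / 10 ≤ ‖h p.1 - h p.2‖}.indicator (fun _ => (1 : ℝ≥0∞)) p := by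
    intro m
    refine measurable_const.indicator ?_
    refine MeasurableSet.inter ?_ (measurableSet_badPairs hc)
    exact (isClosed_le (continuous_fst.sub continuous_snd).abs continuous_const).measurableSet
  set φ : ℕ → ℝ → ℝ → ℝ≥0∞ := fun m x y =>
    {p : ℝ × ℝ | |p.1 - p.2| ≤ 2 / 2 ^ m ∧ 1 / 10 ≤ ‖h p.1 - h p.2‖}.indicator (fun _ => (1 : ℝ≥0∞)) (x, y) with hφ
  have hφy : ∀ m x, Measurable (φ m x) := fun m x => (hφm m).comp measurable_prodMk_left
  have hφx : ∀ m, Measurable fun x => ∫⁻ y, φ m x y := fun m => (hφm m).lintegral_prod_right'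
  have hA : ∀ m i, Ad h m i ≤ ∫⁻ x in Id m i, ∫⁻ y, φ m x y := by
    intro m i
    refine setLIntegral_mono' (measurableSet_Ico) fun x hx => ?_
    have hsub : Jd m i ∩ bad h x ⊆ {y | |x - y| ≤ 2 / 2 ^ m ∧ 1 / 10 ≤ ‖h x - h y‖} := by
      rintro y ⟨hy1, hy2⟩
      refine ⟨?_, hy2⟩
      have hp : (0 : ℝ) < 2 ^ m := by positivity
      rw [Jd, mem_Icc, div_le_iff₀ hp, le_div_iff₀ hp] at hy1
      rw [Id, mem_Ico, div_le_iff₀ hp, lt_div_iff₀ hp] at hx
      have hab : |x - y| * 2 ^ m = |(x - y) * 2 ^ m| := by rw [abs_mul, abs_of_pos hp]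
      rw [le_div_iff₀ hp, hab, abs_le]
      constructor <;> nlinarith [hx.1, hx.2, hy1.1, hy1.2]
    have hms : MeasurableSet {y | |x - y| ≤ 2 / 2 ^ m ∧ 1 / 10 ≤ ‖h x - h y‖} := by
      refine MeasurableSet.inter ?_ (measurableSet_bad hc x)
      exact (isClosed_le (continuous_const.sub continuous_id).abs continuous_const).measurableSet
    calc volume (Jd m i ∩ bad h x) ≤ volume {y | |x - y| ≤ 2 / 2 ^ m ∧ 1 / 10 ≤ ‖h x - h y‖} :=
          measure_mono hsub
      _ = ∫⁻ y, {y | |x - y| ≤ 2 / 2 ^ m ∧ 1 / 10 ≤ ‖h x - h y‖}.indicator 1 y := by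
          rw [lintegral_indicator_one hms]
      _ = ∫⁻ y, φ m x y := rfl
  have hdisj : ∀ m : ℕ, ∑ i ∈ Finset.range (2 ^ m), ∫⁻ x in Id m i, ∫⁻ y, φ m x y ≤
      ∫⁻ x in Ico (0 : ℝ) 1, ∫⁻ y, φ m x y := by
    intro m
    have hp : (0 : ℝ) < 2 ^ m := by positivity
    rw [← lintegral_biUnion_finset]
    · refine lintegral_mono_set ?_
      refine iUnion₂_subset fun i hi => ?_
      have hi' : (i : ℝ) + 1 ≤ 2 ^ m := by
        have : i + 1 ≤ 2 ^ m := Finset.mem_range.1 hi
        exact_mod_cast this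
      refine Ico_subset_Ico (by positivity) ?_
      rw [div_le_one hp]; exact hi'
    · intro i _ j _ hij
      rw [Function.onFun, Set.disjoint_left]
      intro x hxi hxj
      rw [Id, mem_Ico, div_le_iff₀ hp, lt_div_iff₀ hp] at hxi hxj
      apply hij
      have h1 : (i : ℝ) < j + 1 := by linarith [hxi.1, hxj.2]
      have h2 : (j : ℝ) < i + 1 := by linarith [hxj.1, hxi.2]
      have h1' : i < j + 1 := by exact_mod_cast h1
      have h2' : j < i + 1 := by exact_mod_cast h2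
      omega
    · intro i _
      exact measurableSet_Ico
  calc ENNReal.ofReal (∑ m ∈ Finset.Icc 2 n, ∑ i ∈ Finset.range (2 ^ m), ed h m i)
      = ∑ m ∈ Finset.Icc 2 n, ∑ i ∈ Finset.range (2 ^ m), ENNReal.ofReal (4 ^ m) * Ad h m i := by
        rw [ENNReal.ofReal_sum_of_nonneg fun m _ => Finset.sum_nonneg fun i _ => ed_nonneg m i]
        refine Finset.sum_congr rfl fun m _ => ?_
        rw [ENNReal.ofReal_sum_of_nonneg fun i _ => ed_nonneg m i]
        refine Finset.sum_congr rfl fun i hi => ?_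
        rw [ofReal_ed, Nat.mod_eq_of_lt (Finset.mem_range.1 hi)]
    _ ≤ ∑ m ∈ Finset.Icc 2 n, ENNReal.ofReal (4 ^ m) * ∫⁻ x in Ico (0 : ℝ) 1, ∫⁻ y, φ m x y := by
        refine Finset.sum_le_sum fun m _ => ?_
        rw [← Finset.mul_sum]
        gcongr
        exact (Finset.sum_le_sum fun i _ => hA m i).trans (hdisj m)
    _ = ∫⁻ x in Ico (0 : ℝ) 1, ∫⁻ y, ∑ m ∈ Finset.Icc 2 n, ENNReal.ofReal (4 ^ m) * φ m x y := by
        have h1 : ∀ x, ∫⁻ y, ∑ m ∈ Finset.Icc 2 n, ENNReal.ofReal (4 ^ m) * φ m x y =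
            ∑ m ∈ Finset.Icc 2 n, ENNReal.ofReal (4 ^ m) * ∫⁻ y, φ m x y := by
          intro x
          rw [lintegral_finsetSum _ fun m _ => (hφy m x).const_mul _]
          refine Finset.sum_congr rfl fun m _ => ?_
          rw [lintegral_const_mul _ (hφy m x)]
        simp only [h1]
        rw [lintegral_finsetSum _ fun m _ => (hφx m).const_mul _]
        refine Finset.sum_congr rfl fun m _ => ?_
        rw [lintegral_const_mul _ (hφx m)]
    _ ≤ ∫⁻ x in Ico (0 : ℝ) 1, ∫⁻ y, ENNReal.ofReal (16 / 3) * kern h x y := by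
        refine lintegral_mono fun x => lintegral_mono fun y => ?_
        by_cases hb : 1 / 10 ≤ ‖h x - h y‖
        · have hxy : x ≠ y := by
            rintro rfl
            rw [sub_self, norm_zero] at hb
            norm_num at hb
          have ht : 0 < |x - y| := abs_pos.2 (sub_ne_zero.2 hxy)
          have h1 := geo_bound ht n
          have h2 : ∑ m ∈ Finset.Icc 2 n, ENNReal.ofReal (4 ^ m) * φ m x y =
              ENNReal.ofReal (∑ m ∈ Finset.Icc 2 n, (if |x - y| ≤ 2 / 2 ^ m then (4 : ℝ) ^ m else 0)) := by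
            rw [ENNReal.ofReal_sum_of_nonneg fun m _ => by split_ifs <;> positivity]
            refine Finset.sum_congr rfl fun m _ => ?_
            simp only [hφ]
            by_cases hm : |x - y| ≤ 2 / 2 ^ m
            · rw [if_pos hm, indicator_of_mem (show (x, y) ∈ {p : ℝ × ℝ | |p.1 - p.2| ≤ 2 / 2 ^ m ∧
                1 / 10 ≤ ‖h p.1 - h p.2‖} from ⟨hm, hb⟩), mul_one]
            · rw [if_neg hm, indicator_of_notMem (fun hh => hm hh.1), mul_zero, ENNReal.ofReal_zero]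
          rw [h2]
          refine (ENNReal.ofReal_le_ofReal h1).trans ?_
          unfold kern
          by_cases h3 : |x - y| ≤ 1 / 2
          · rw [if_pos h3, if_pos ⟨h3, hb⟩, ENNReal.ofReal_mul (by norm_num)]
          · rw [if_neg h3, ENNReal.ofReal_zero]
            exact zero_le
        · have h2 : ∑ m ∈ Finset.Icc 2 n, ENNReal.ofReal (4 ^ m) * φ m x y = 0 := by
            refine Finset.sum_eq_zero fun m _ => ?_
            simp only [hφ]
            rw [indicator_of_notMem (fun hh => hb hh.2), mul_zero]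
          rw [h2]
          exact zero_le
    _ = _ := by
        have hkm : Measurable fun p : ℝ × ℝ => kern h p.1 p.2 := by
          unfold kern
          refine Measurable.ite ?_ ?_ measurable_const
          · refine MeasurableSet.inter ?_ (measurableSet_badPairs hc)
            exact (isClosed_le (continuous_fst.sub continuous_snd).abs continuous_const).measurableSet
          · fun_prop
        have h1 : ∀ x, ∫⁻ y, ENNReal.ofReal (16 / 3) * kern h x y = ENNReal.ofReal (16 / 3) * ∫⁻ y, kern h x y :=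
          fun x => lintegral_const_mul _ (hkm.comp measurable_prodMk_left)
        simp only [h1]
        rw [lintegral_const_mul _ hkm.lintegral_prod_right']

/-- The gap estimate at a fixed scale. -/
theorem gap_fixed (hper : ∀ t, h (t + 1) = h t) :
    ∃ n0 : ℕ, ∀ n, n0 ≤ n →
      ENNReal.ofReal |∑ i ∈ Finset.range (2 ^ n), dl (h ((i : ℝ) / 2 ^ n)) (h (((i : ℝ) + 1) / 2 ^ n))| ≤
        ENNReal.ofReal (256 / 3) * ∫⁻ x in Ico (0 : ℝ) 1, ∫⁻ y, kern h x y := by
  obtain ⟨v, hv, hx, hbound⟩ := comb_dyadic hc hper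
  have huc := (isCompact_Icc (a := (0 : ℝ)) (b := 2)).uniformContinuousOn_of_continuous hc.continuousOn
  rw [Metric.uniformContinuousOn_iff] at huc
  obtain ⟨η, hη, huc⟩ := huc (1 / 5) (by norm_num)
  obtain ⟨n1, hn1⟩ := exists_pow_lt_of_lt_one (show 0 < η by exact hη) (show (1 / 2 : ℝ) < 1 by norm_num)
  refine ⟨max 2 n1, fun n hn => ?_⟩
  have hn2 : 2 ≤ n := (le_max_left _ _).trans hn
  have hn1' : 1 / 2 ^ n < η := by
    calc (1 : ℝ) / 2 ^ n = (1 / 2) ^ n := by rw [div_pow, one_pow]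
      _ ≤ (1 / 2) ^ n1 := pow_le_pow_of_le_one (by norm_num) (by norm_num) ((le_max_right _ _).trans hn)
      _ < η := hn1
  have hp : (0 : ℝ) < 2 ^ n := by positivity
  have hp1 : (1 : ℝ) ≤ 2 ^ n := one_le_pow₀ (by norm_num)
  have hclose : ∀ s t : ℝ, s ∈ Icc (0 : ℝ) 2 → t ∈ Icc (0 : ℝ) 2 → |s - t| ≤ 1 / 2 ^ n → ‖h t - h s‖ < 1 / 5 := by
    intro s t hs ht hst
    have := huc t ht s hs (by rw [Real.dist_eq, abs_sub_comm]; exact hst.trans_lt hn1')
    rwa [dist_eq_norm] at this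
  have hcl2 : ∀ i ≤ 2 ^ n, ‖v n i - h ((i : ℝ) / 2 ^ n)‖ < 1 / 5 := by
    intro i hi
    obtain ⟨x, hx1, hx2⟩ := hx n i
    rw [← hx2]
    have hi' : (i : ℝ) ≤ 2 ^ n := by exact_mod_cast hi
    have h1 : (i : ℝ) / 2 ^ n ≤ 1 := (div_le_one hp).2 hi'
    have h0 : 0 ≤ (i : ℝ) / 2 ^ n := by positivity
    have h3 : ((i : ℝ) + 1) / 2 ^ n = i / 2 ^ n + 1 / 2 ^ n := by ring
    have h4 : (1 : ℝ) / 2 ^ n ≤ 1 := (div_le_one hp).2 hp1
    refine hclose _ _ ⟨h0, by linarith⟩ ⟨h0.trans hx1.1, by linarith [hx1.2]⟩ ?_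
    rw [abs_le]
    constructor <;> linarith [hx1.1, hx1.2]
  have hsum : ∑ i ∈ Finset.range (2 ^ n), dl (h ((i : ℝ) / 2 ^ n)) (h (((i : ℝ) + 1) / 2 ^ n)) =
      ∑ i ∈ Finset.range (2 ^ n), dl (v n i) (v n (i + 1)) := by
    have hv0 : v n (2 ^ n) = v n 0 := by have := hv n 0; rwa [zero_add] at this
    have hz := sum_shift (F := fun i : ℕ => dl (h ((i : ℝ) / 2 ^ n)) (v n i)) (N := 2 ^ n) (by
      show dl (h (((2 ^ n : ℕ) : ℝ) / 2 ^ n)) (v n (2 ^ n)) = dl (h (((0 : ℕ) : ℝ) / 2 ^ n)) (v n 0)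
      rw [hv0]
      congr 1
      push_cast
      rw [div_self hp.ne', zero_div, ← hper 0, zero_add])
    rw [← sub_eq_zero, ← Finset.sum_sub_distrib]
    have hq : ∀ i ∈ Finset.range (2 ^ n), dl (h ((i : ℝ) / 2 ^ n)) (h (((i : ℝ) + 1) / 2 ^ n)) -
        dl (v n i) (v n (i + 1)) = dl (h ((i : ℝ) / 2 ^ n)) (v n i) -
          dl (h (((i + 1 : ℕ) : ℝ) / 2 ^ n)) (v n (i + 1)) := by
      intro i hi
      have hi1 : i < 2 ^ n := Finset.mem_range.1 hi
      have c1 := hcl2 i hi1.le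
      have c2 := hcl2 (i + 1) hi1
      have c3 : ‖h (((i : ℝ) + 1) / 2 ^ n) - h ((i : ℝ) / 2 ^ n)‖ < 1 / 5 := by
        have hi' : (i : ℝ) + 1 ≤ 2 ^ n := by exact_mod_cast hi1
        have h1 : ((i : ℝ) + 1) / 2 ^ n ≤ 1 := (div_le_one hp).2 hi'
        have h0 : 0 ≤ (i : ℝ) / 2 ^ n := by positivity
        have h3 : ((i : ℝ) + 1) / 2 ^ n = i / 2 ^ n + 1 / 2 ^ n := by ring
        have h4 : (0 : ℝ) < 1 / 2 ^ n := by positivity
        refine hclose _ _ ⟨h0, by linarith⟩ ⟨by linarith, by linarith⟩ ?_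
        rw [abs_le]
        constructor <;> linarith
      have c4 := abs_dl_le (v n i) (v n (i + 1))
      rw [← abs_dl] at c1 c2 c3
      push_cast at c2 ⊢
      have hzero : ((dl (h ((i : ℝ) / 2 ^ n)) (v n i) + dl (v n i) (v n (i + 1)) -
          dl (h (((i : ℝ) + 1) / 2 ^ n)) (v n (i + 1)) - dl (h ((i : ℝ) / 2 ^ n)) (h (((i : ℝ) + 1) / 2 ^ n)) : ℝ)
            : T1) = 0 := by
        simp only [AddCircle.coe_sub, AddCircle.coe_add, coe_dl]
        abel
      have hvv : |dl (v n i) (v n (i + 1))| < 1 / 2 ∨ True := Or.inr trivial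
      -- the middle increment is also small
      have c5 : ‖v n (i + 1) - v n i‖ < 2 / 5 := by
        obtain ⟨x, hx1, hx2⟩ := hx n i
        obtain ⟨x', hx1', hx2'⟩ := hx n (i + 1)
        have hi' : (i : ℝ) + 1 ≤ 2 ^ n := by exact_mod_cast hi1
        have h1 : ((i : ℝ) + 1) / 2 ^ n ≤ 1 := (div_le_one hp).2 hi'
        have h0 : 0 ≤ (i : ℝ) / 2 ^ n := by positivity
        have h3 : ((i : ℝ) + 1) / 2 ^ n = i / 2 ^ n + 1 / 2 ^ n := by ring
        have h5 : ((i : ℝ) + 1 + 1) / 2 ^ n = i / 2 ^ n + 1 / 2 ^ n + 1 / 2 ^ n := by ring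
        have h4 : (0 : ℝ) < 1 / 2 ^ n := by positivity
        have h6 : (1 : ℝ) / 2 ^ n ≤ 1 := (div_le_one hp).2 hp1
        push_cast at hx1'
        rw [← hx2, ← hx2']
        have d1 := hclose x (((i : ℝ) + 1) / 2 ^ n) ⟨by linarith [hx1.1], by linarith [hx1.2]⟩
          ⟨by linarith, by linarith⟩ (by rw [abs_le]; constructor <;> linarith [hx1.1, hx1.2])
        have d2 := hclose (((i : ℝ) + 1) / 2 ^ n) x' ⟨by linarith, by linarith⟩
          ⟨by linarith [hx1'.1], by linarith [hx1'.2]⟩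
          (by rw [abs_le]; constructor <;> linarith [hx1'.1, hx1'.2])
        calc ‖h x' - h x‖ = ‖(h x' - h (((i : ℝ) + 1) / 2 ^ n)) + (h (((i : ℝ) + 1) / 2 ^ n) - h x)‖ := by
              congr 1; abel
          _ ≤ _ := norm_add_le _ _
          _ < 2 / 5 := by linarith
      rw [← abs_dl] at c5
      have hlt : |dl (h ((i : ℝ) / 2 ^ n)) (v n i) + dl (v n i) (v n (i + 1)) -
          dl (h (((i : ℝ) + 1) / 2 ^ n)) (v n (i + 1)) - dl (h ((i : ℝ) / 2 ^ n)) (h (((i : ℝ) + 1) / 2 ^ n))| < 1 := by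
        rw [abs_lt] at c1 c2 c3 c5 ⊢
        constructor <;> linarith [c1.1, c1.2, c2.1, c2.2, c3.1, c3.2, c5.1, c5.2]
      have := abs_int_lt_one hzero hlt
      linarith
    rw [Finset.sum_congr rfl hq, Finset.sum_sub_distrib, hz, sub_self]
  rw [hsum]
  calc ENNReal.ofReal |∑ i ∈ Finset.range (2 ^ n), dl (v n i) (v n (i + 1))| ≤
      ENNReal.ofReal (16 * ∑ m ∈ Finset.Icc 2 n, ∑ i ∈ Finset.range (2 ^ m), ed h m i) :=
        ENNReal.ofReal_le_ofReal (hbound n hn2)
    _ = ENNReal.ofReal 16 * ENNReal.ofReal (∑ m ∈ Finset.Icc 2 n, ∑ i ∈ Finset.range (2 ^ m), ed h m i) := by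
        rw [ENNReal.ofReal_mul (by norm_num)]
    _ ≤ ENNReal.ofReal 16 * (ENNReal.ofReal (16 / 3) * ∫⁻ x in Ico (0 : ℝ) 1, ∫⁻ y, kern h x y) := by
        gcongr
        exact energy_bound hc n
    _ = _ := by
        rw [← mul_assoc, ← ENNReal.ofReal_mul (by norm_num)]
        norm_num

end

end Pool.Agent.Q74.Gap
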