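import Mathlib
import Pool.Agent.Q74.Gap.Meas

/-! # The power trick: the gap estimate at every scale for Lipschitz circle valued maps -/

set_option autoImplicit false

open MeasureTheory Set Filter Topology
open scoped ENNReal

namespace Pool.Agent.Q74.Gap

/-- The sum of the short increments of `h` over the `n`-th dyadic subdivision of `[0,1]`. -/
noncomputable def dsum (h : ℝ → T1) (n : ℕ) : ℝ :=
  ∑ i ∈ Finset.range (2 ^ n), dl (h ((i : ℝ) / 2 ^ n)) (h (((i : ℝ) + 1) / 2 ^ n))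

theorem dl_nsmul {a b : T1} {k : ℕ} (h : k * ‖b - a‖ < 1 / 2) : dl (k • a) (k • b) = k * dl a b := by
  unfold dl
  have h1 : k • b - k • a = ((k * rep (b - a) : ℝ) : T1) := by
    rw [← smul_sub, ← nsmul_eq_mul, AddCircle.coe_nsmul, coe_rep]
  rw [h1, rep_eq]
  rw [abs_mul, abs_rep, Nat.abs_cast]
  exact h

theorem mesh_small {h : ℝ → T1} (hc : Continuous h) {η : ℝ} (hη : 0 < η) :
    ∃ n0 : ℕ, ∀ n, n0 ≤ n → ∀ i : ℕ, i < 2 ^ n → ‖h (((i : ℝ) + 1) / 2 ^ n) - h ((i : ℝ) / 2 ^ n)‖ < η := by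
  have huc := (isCompact_Icc (a := (0 : ℝ)) (b := 1)).uniformContinuousOn_of_continuous hc.continuousOn
  rw [Metric.uniformContinuousOn_iff] at huc
  obtain ⟨δ, hδ, huc⟩ := huc η hη
  obtain ⟨n1, hn1⟩ := exists_pow_lt_of_lt_one hδ (show (1 / 2 : ℝ) < 1 by norm_num)
  refine ⟨n1, fun n hn i hi => ?_⟩
  have hn1' : 1 / 2 ^ n < δ := by
    calc (1 : ℝ) / 2 ^ n = (1 / 2) ^ n := by rw [div_pow, one_pow]
      _ ≤ (1 / 2) ^ n1 := pow_le_pow_of_le_one (by norm_num) (by norm_num) hn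
      _ < δ := hn1
  have hp : (0 : ℝ) < 2 ^ n := by positivity
  have hi' : (i : ℝ) + 1 ≤ 2 ^ n := by exact_mod_cast hi
  have h1 : ((i : ℝ) + 1) / 2 ^ n ≤ 1 := (div_le_one hp).2 hi'
  have h0 : 0 ≤ (i : ℝ) / 2 ^ n := by positivity
  have h3 : ((i : ℝ) + 1) / 2 ^ n = i / 2 ^ n + 1 / 2 ^ n := by ring
  have h4 : (0 : ℝ) < 1 / 2 ^ n := by positivity
  have := huc (((i : ℝ) + 1) / 2 ^ n) ⟨by linarith, h1⟩ (i / 2 ^ n) ⟨h0, by linarith⟩ (by
    rw [Real.dist_eq, h3, add_sub_cancel_left, abs_of_pos h4]; exact hn1')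
  rwa [dist_eq_norm] at this

/-- The kernel of the gap energy for a distance function `D`. -/
noncomputable def kernD {N : Type*} (D : N → N → ℝ) (f : ℝ → N) (ε : ℝ) (x y : ℝ) : ℝ≥0∞ :=
  open Classical in if |x - y| ≤ 1 / 2 ∧ ε ≤ D (f x) (f y) then ENNReal.ofReal (1 / |x - y| ^ 2) else 0

theorem gap_power {N : Type*} (D : N → N → ℝ) (f : ℝ → N) (g : N → T1) (L : ℝ) (hL : 0 < L)
    (hg : ∀ x y, ‖g x - g y‖ ≤ L * D x y) (hc : Continuous fun t => g (f t)) (hper : ∀ t, f (t + 1) = f t)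
    (ε : ℝ) (hε : 0 < ε) (hε' : 10 * L * ε ≤ 1) :
    ∃ n0 : ℕ, ∀ n, n0 ≤ n → ENNReal.ofReal |dsum (fun t => g (f t)) n| ≤
      ENNReal.ofReal (5120 / 3 * L * ε) * ∫⁻ x in Ico (0 : ℝ) 1, ∫⁻ y, kernD D f ε x y := by
  have hq : 0 < 10 * L * ε := by positivity
  have hq1 : 1 ≤ 1 / (10 * L * ε) := by rw [le_div_iff₀ hq]; linarith
  set k : ℕ := ⌊1 / (10 * L * ε)⌋₊ with hk
  have hk1 : 1 ≤ k := Nat.le_floor (by exact_mod_cast hq1)
  have hk1' : (1 : ℝ) ≤ k := by exact_mod_cast hk1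
  have hk2 : (k : ℝ) ≤ 1 / (10 * L * ε) := Nat.floor_le (by positivity)
  have hk3 : 1 / (10 * L * ε) < k + 1 := Nat.lt_floor_add_one _
  have hkpos : (0 : ℝ) < k := by linarith
  have hk4 : 1 / (k : ℝ) ≤ 20 * L * ε := by
    rw [div_le_iff₀ hkpos]
    have h1 : 1 / (10 * L * ε) ≤ 2 * k := by linarith
    rw [div_le_iff₀ hq] at h1
    linarith
  have hk5 : k * (10 * L * ε) ≤ 1 := by rwa [le_div_iff₀ hq] at hk2
  have hhc : Continuous fun t => k • g (f t) := hc.const_smul k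
  obtain ⟨n0, hn0⟩ := gap_fixed hhc (fun t => by simp only [hper])
  obtain ⟨n1, hn1⟩ := mesh_small hc (show (0 : ℝ) < 1 / (2 * k) by positivity)
  refine ⟨max n0 n1, fun n hn => ?_⟩
  have hA := hn0 n ((le_max_left _ _).trans hn)
  have hsum : ∑ i ∈ Finset.range (2 ^ n), dl (k • g (f ((i : ℝ) / 2 ^ n))) (k • g (f (((i : ℝ) + 1) / 2 ^ n))) =
      k * dsum (fun t => g (f t)) n := by
    rw [dsum, Finset.mul_sum]
    refine Finset.sum_congr rfl fun i hi => dl_nsmul ?_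
    have := hn1 n ((le_max_right _ _).trans hn) i (Finset.mem_range.1 hi)
    rw [lt_div_iff₀ (by positivity)] at this
    linarith
  rw [hsum, abs_mul, Nat.abs_cast] at hA
  have hker : ∫⁻ x in Ico (0 : ℝ) 1, ∫⁻ y, kern (fun t => k • g (f t)) x y ≤
      ∫⁻ x in Ico (0 : ℝ) 1, ∫⁻ y, kernD D f ε x y := by
    refine lintegral_mono fun x => lintegral_mono fun y => ?_
    unfold kern kernD
    by_cases h1 : |x - y| ≤ 1 / 2 ∧ 1 / 10 ≤ ‖k • g (f x) - k • g (f y)‖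
    · have h2 : ‖k • g (f x) - k • g (f y)‖ ≤ k * (L * D (f x) (f y)) := by
        rw [← smul_sub]
        refine (norm_nsmul_le).trans ?_
        gcongr
        exact hg _ _
      have h3 : 1 / 10 ≤ k * (L * D (f x) (f y)) := h1.2.trans h2
      have h4 : k * L * ε ≤ k * L * D (f x) (f y) := by nlinarith
      rw [if_pos h1, if_pos ⟨h1.1, le_of_mul_le_mul_left h4 (by positivity)⟩]
    · rw [if_neg h1]
      exact zero_le
  calc ENNReal.ofReal |dsum (fun t => g (f t)) n|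
      = ENNReal.ofReal (1 / k) * ENNReal.ofReal (k * |dsum (fun t => g (f t)) n|) := by
        rw [← ENNReal.ofReal_mul (by positivity)]
        congr 1
        field_simp
    _ ≤ ENNReal.ofReal (1 / k) * (ENNReal.ofReal (256 / 3) *
          ∫⁻ x in Ico (0 : ℝ) 1, ∫⁻ y, kern (fun t => k • g (f t)) x y) := by gcongr
    _ ≤ ENNReal.ofReal (20 * L * ε) * (ENNReal.ofReal (256 / 3) *
          ∫⁻ x in Ico (0 : ℝ) 1, ∫⁻ y, kernD D f ε x y) := by gcongr
    _ = _ := by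
        rw [← mul_assoc, ← ENNReal.ofReal_mul (by positivity)]
        congr 2
        ring

end Pool.Agent.Q74.Gap
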