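import Mathlib
import Pool.Agent.Q74.Gap.Power

/-! # The energy over the unit circle with the chord distance -/

set_option autoImplicit false

open MeasureTheory Set Filter Topology
open scoped ENNReal

namespace Pool.Agent.Q74.Gap

/-- The double integral over the pairs of points of the unit circle satisfying `P`, with kernel
`1/|y-x|^2` (chord distance); both variables are arc length parameters. -/
noncomputable def circE (P : Circle → Circle → Prop) : ℝ≥0∞ :=
  ∫⁻ s in Ioc (0 : ℝ) (2 * Real.pi), ∫⁻ t in Ioc (0 : ℝ) (2 * Real.pi),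
    open Classical in if P (Circle.exp s) (Circle.exp t) then
      ENNReal.ofReal (1 / ‖(Circle.exp s : ℂ) - Circle.exp t‖ ^ 2) else 0

theorem lint_scale {a : ℝ} (ha : 0 < a) (F : ℝ → ℝ≥0∞) :
    ∫⁻ s, F s = ENNReal.ofReal a * ∫⁻ x, F (a * x) := by
  conv_lhs => rw [← Real.smul_map_volume_mul_left ha.ne', abs_of_pos ha, lintegral_smul_measure]
  rw [smul_eq_mul]
  congr 1
  exact (Homeomorph.mulLeft₀ a ha.ne').measurableEmbedding.lintegral_map F

theorem lint_scale_set {a : ℝ} (ha : 0 < a) (F : ℝ → ℝ≥0∞) :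
    ∫⁻ s in Ioc 0 a, F s = ENNReal.ofReal a * ∫⁻ x in Ioc (0 : ℝ) 1, F (a * x) := by
  rw [← lintegral_indicator measurableSet_Ioc, ← lintegral_indicator measurableSet_Ioc, lint_scale ha]
  congr 1
  refine lintegral_congr fun x => ?_
  by_cases hx : x ∈ Ioc (0 : ℝ) 1
  · rw [indicator_of_mem hx, indicator_of_mem]
    exact ⟨mul_pos ha hx.1, by nlinarith [hx.2]⟩
  · rw [indicator_of_notMem hx, indicator_of_notMem]
    rintro ⟨h1, h2⟩
    apply hx
    refine ⟨by by_contra h; push Not at h; nlinarith, by by_contra h; push Not at h; nlinarith⟩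

theorem chord_le (a b : ℝ) : ‖(Circle.exp a : ℂ) - Circle.exp b‖ ≤ |a - b| := by
  have h1 : (Circle.exp a : ℂ) - Circle.exp b = Circle.exp b * (Complex.exp (Complex.I * ((a - b : ℝ) : ℂ)) - 1) := by
    rw [Circle.coe_exp, Circle.coe_exp, mul_sub, ← Complex.exp_add, mul_one]
    congr 2
    push_cast
    ring
  rw [h1, norm_mul, Circle.norm_coe, one_mul]
  exact Real.norm_exp_I_mul_ofReal_sub_one_le

theorem chord_pos {a b : ℝ} (h : a ≠ b) (h2 : |a - b| < 2 * Real.pi) :
    0 < ‖(Circle.exp a : ℂ) - Circle.exp b‖ := by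
  rw [norm_pos_iff, sub_ne_zero]
  intro h3
  have h4 : Circle.exp a = Circle.exp b := Subtype.ext h3
  rw [Circle.exp_eq_exp] at h4
  obtain ⟨m, hm⟩ := h4
  have hpi := Real.pi_pos
  have h5 : |(m : ℝ)| * (2 * Real.pi) < 1 * (2 * Real.pi) := by
    have : a - b = m * (2 * Real.pi) := by linarith
    rw [this, abs_mul, abs_of_pos (show 0 < 2 * Real.pi by positivity)] at h2
    linarith
  have h6 : |(m : ℝ)| < 1 := lt_of_mul_lt_mul_right h5 (by positivity)
  have h7 : |m| < 1 := by exact_mod_cast h6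
  rw [Int.abs_lt_one_iff] at h7
  apply h
  rw [hm, h7]
  simp

theorem unit_le_circE (P : Circle → Circle → Prop) :
    ∫⁻ x in Ico (0 : ℝ) 1, ∫⁻ y, (open Classical in if |x - y| ≤ 1 / 2 ∧
      P (Circle.exp (2 * Real.pi * x)) (Circle.exp (2 * Real.pi * y)) then
        ENNReal.ofReal (1 / |x - y| ^ 2) else 0) ≤ circE P := by
  classical
  have hpi := Real.pi_pos
  have h2pi : 0 < 2 * Real.pi := by positivity
  set G : ℝ → ℝ → ℝ≥0∞ := fun s t => if P (Circle.exp s) (Circle.exp t) then
      ENNReal.ofReal (1 / ‖(Circle.exp s : ℂ) - Circle.exp t‖ ^ 2) else 0 with hG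
  have hcirc : circE P = ENNReal.ofReal ((2 * Real.pi) ^ 2) *
      ∫⁻ x in Ioc (0 : ℝ) 1, ∫⁻ y in Ioc (0 : ℝ) 1, G (2 * Real.pi * x) (2 * Real.pi * y) := by
    unfold circE
    rw [lint_scale_set h2pi]
    rw [show ENNReal.ofReal ((2 * Real.pi) ^ 2) = ENNReal.ofReal (2 * Real.pi) * ENNReal.ofReal (2 * Real.pi) by
      rw [← ENNReal.ofReal_mul h2pi.le, sq], mul_assoc]
    congr 1
    rw [← lintegral_const_mul' _ _ ENNReal.ofReal_ne_top]
    refine lintegral_congr fun x => ?_
    rw [lint_scale_set h2pi]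
  have hinner : ∀ x : ℝ, ∫⁻ y, (if |x - y| ≤ 1 / 2 ∧
      P (Circle.exp (2 * Real.pi * x)) (Circle.exp (2 * Real.pi * y)) then
        ENNReal.ofReal (1 / |x - y| ^ 2) else 0) ≤
      ENNReal.ofReal ((2 * Real.pi) ^ 2) * ∫⁻ y in Ioc (0 : ℝ) 1, G (2 * Real.pi * x) (2 * Real.pi * y) := by
    intro x
    have h1 : ∀ y : ℝ, (if |x - y| ≤ 1 / 2 ∧
        P (Circle.exp (2 * Real.pi * x)) (Circle.exp (2 * Real.pi * y)) then
          ENNReal.ofReal (1 / |x - y| ^ 2) else 0) ≤
        (Icc (x - 1 / 2) (x + 1 / 2)).indicator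
          (fun y => ENNReal.ofReal ((2 * Real.pi) ^ 2) * G (2 * Real.pi * x) (2 * Real.pi * y)) y := by
      intro y
      by_cases hy : |x - y| ≤ 1 / 2 ∧ P (Circle.exp (2 * Real.pi * x)) (Circle.exp (2 * Real.pi * y))
      · rw [if_pos hy, indicator_of_mem (by
          have := abs_le.1 hy.1
          constructor <;> linarith [this.1, this.2])]
        simp only [hG]
        rw [if_pos hy.2, ← ENNReal.ofReal_mul (by positivity)]
        refine ENNReal.ofReal_le_ofReal ?_
        by_cases hxy : x = y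
        · subst hxy
          simp
        · have hd : 0 < |x - y| := abs_pos.2 (sub_ne_zero.2 hxy)
          have he : |2 * Real.pi * x - 2 * Real.pi * y| = 2 * Real.pi * |x - y| := by
            rw [← mul_sub, abs_mul, abs_of_pos h2pi]
          have h3 := chord_le (2 * Real.pi * x) (2 * Real.pi * y)
          rw [he] at h3
          have h4 : 0 < ‖(Circle.exp (2 * Real.pi * x) : ℂ) - Circle.exp (2 * Real.pi * y)‖ := by
            refine chord_pos (fun h => hxy (mul_left_cancel₀ h2pi.ne' h)) ?_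
            rw [he]
            nlinarith [hy.1]
          rw [div_le_iff₀ (by positivity), mul_one_div, div_mul_eq_mul_div, le_div_iff₀ (by positivity), one_mul,
            ← mul_pow]
          gcongr
      · rw [if_neg hy]
        exact zero_le
    refine (lintegral_mono h1).trans ?_
    rw [lintegral_indicator measurableSet_Icc, lintegral_const_mul' _ _ ENNReal.ofReal_ne_top]
    refine mul_le_mul' le_rfl ?_
    rw [← setLIntegral_congr (Ioc_ae_eq_Icc (α := ℝ) (μ := volume))]
    refine le_of_eq ?_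
    have hd1 := isAddFundamentalDomain_Ioc (show (0 : ℝ) < 1 by norm_num) (x - 1 / 2)
    have hd2 := isAddFundamentalDomain_Ioc (show (0 : ℝ) < 1 by norm_num) 0
    rw [show x - 1 / 2 + 1 = x + 1 / 2 by ring] at hd1
    rw [zero_add] at hd2
    refine hd1.setLIntegral_eq hd2 _ ?_
    rintro ⟨g, hg⟩ y
    obtain ⟨n, rfl⟩ := hg
    have h5 : Circle.exp (2 * Real.pi * (n • (1 : ℝ) + y)) = Circle.exp (2 * Real.pi * y) := by
      rw [Circle.exp_eq_exp]
      exact ⟨n, by simp; ring⟩
    show G (2 * Real.pi * x) (2 * Real.pi * (n • (1 : ℝ) + y)) = _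
    simp only [hG]
    rw [h5]
  rw [hcirc, ← lintegral_const_mul' _ _ ENNReal.ofReal_ne_top]
  rw [setLIntegral_congr (Ico_ae_eq_Ioc (α := ℝ) (μ := volume))]
  exact lintegral_mono fun x => hinner x

end Pool.Agent.Q74.Gap
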