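import Mathlib
import Pool.Agent.Q74.Gap.Power

/-! # Real local cocycles are real combinations of Lipschitz circle valued maps -/

set_option autoImplicit false

open MeasureTheory Set Filter Topology
open scoped ENNReal

namespace Pool.Agent.Q74.Gap

theorem norm_coe_le (x : ℝ) : ‖(x : T1)‖ ≤ |x| := by
  by_cases h : |x| ≤ 1 / 2
  · rw [(AddCircle.norm_coe_eq_abs_iff (1 : ℝ) one_ne_zero).2 (by rwa [abs_one])]
  · push Not at h
    have := AddCircle.norm_le_half_period (1 : ℝ) (x := (x : T1)) one_ne_zero
    rw [abs_one] at this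
    linarith

/-- A pseudo distance. -/
structure IsPD {N : Type*} (D : N → N → ℝ) : Prop where
  nonneg : ∀ x y, 0 ≤ D x y
  self : ∀ x, D x x = 0
  symm : ∀ x y, D x y = D y x
  tri : ∀ x y z, D x z ≤ D x y + D y z

section
variable {N : Type*} {D : N → N → ℝ} (hD : IsPD D) {r : ℝ} (hr : 0 < r) {m : ℕ} (p : Fin m → N)

/-- bump functions -/
noncomputable def bw (D : N → N → ℝ) (r : ℝ) (p : Fin m → N) (i : Fin m) (x : N) : ℝ := max 0 (r / 5 - D x (p i))

/-- partition of unity -/
noncomputable def brho (D : N → N → ℝ) (r : ℝ) (p : Fin m → N) (i : Fin m) (x : N) : ℝ :=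
  bw D r p i x / ∑ l, bw D r p l x

theorem bw_nonneg (i : Fin m) (x : N) : 0 ≤ bw D r p i x := le_max_left _ _

include hD in
theorem bw_lip (i : Fin m) (x y : N) : |bw D r p i x - bw D r p i y| ≤ D x y := by
  unfold bw
  rw [max_comm 0 (r / 5 - D x (p i)), max_comm 0 (r / 5 - D y (p i))]
  refine (abs_max_sub_max_le_abs (r / 5 - D x (p i)) (r / 5 - D y (p i)) 0).trans ?_
  rw [abs_le]
  have h1 := hD.tri x y (p i)
  have h2 := hD.tri y x (p i)
  rw [hD.symm y x] at h2
  constructor <;> linarith

variable (hp : ∀ x, ∃ j, D x (p j) < r / 10)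

include hp in
theorem bsum_ge (x : N) : r / 10 ≤ ∑ l, bw D r p l x := by
  obtain ⟨j, hj⟩ := hp x
  calc r / 10 ≤ bw D r p j x := by
        unfold bw
        refine le_trans ?_ (le_max_right _ _)
        linarith
    _ ≤ _ := Finset.single_le_sum (f := fun l => bw D r p l x) (fun l _ => bw_nonneg p l x) (Finset.mem_univ j)

include hr hp in
theorem brho_sum (x : N) : ∑ i, brho D r p i x = 1 := by
  unfold brho
  rw [← Finset.sum_div]
  exact div_self (ne_of_gt (lt_of_lt_of_le (by positivity) (bsum_ge p hp x)))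

theorem brho_nonneg (i : Fin m) (x : N) : 0 ≤ brho D r p i x :=
  div_nonneg (bw_nonneg p i x) (Finset.sum_nonneg fun l _ => bw_nonneg p l x)

include hr hp in
theorem brho_le_one (i : Fin m) (x : N) : brho D r p i x ≤ 1 := by
  rw [← brho_sum hr p hp x]
  exact Finset.single_le_sum (f := fun l => brho D r p l x) (fun l _ => brho_nonneg p l x) (Finset.mem_univ i)

theorem brho_zero (i : Fin m) (x : N) (h : r / 5 ≤ D x (p i)) : brho D r p i x = 0 := by
  unfold brho bw
  rw [max_eq_left (by linarith), zero_div]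

include hD hr hp in
theorem brho_lip (i : Fin m) (x y : N) :
    |brho D r p i x - brho D r p i y| ≤ (m + 1) * (10 / r) * D x y := by
  have hWx := bsum_ge p hp x
  have hWy := bsum_ge p hp y
  have hr' : 0 < r / 10 := by positivity
  set Wx := ∑ l, bw D r p l x with hWxd
  set Wy := ∑ l, bw D r p l y with hWyd
  have hWx0 : 0 < Wx := by linarith
  have hWy0 : 0 < Wy := by linarith
  have hWW : |Wy - Wx| ≤ m * D x y := by
    rw [hWxd, hWyd, ← Finset.sum_sub_distrib]
    refine (Finset.abs_sum_le_sum_abs _ _).trans ?_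
    calc ∑ l, |bw D r p l y - bw D r p l x| ≤ ∑ _l : Fin m, D x y :=
          Finset.sum_le_sum fun l _ => by rw [hD.symm x y]; exact bw_lip hD p l y x
      _ = m * D x y := by rw [Finset.sum_const, Finset.card_univ, Fintype.card_fin, nsmul_eq_mul]
  have h1 : brho D r p i x - brho D r p i y =
      (bw D r p i x - bw D r p i y) / Wx + brho D r p i y * ((Wy - Wx) / Wx) := by
    have e1 : brho D r p i x = bw D r p i x / Wx := rfl
    have e2 : brho D r p i y = bw D r p i y / Wy := rfl
    rw [e1, e2]
    field_simp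
    ring
  have hd := hD.nonneg x y
  have h2 : |(bw D r p i x - bw D r p i y) / Wx| ≤ 10 / r * D x y := by
    rw [abs_div, abs_of_pos hWx0, div_le_iff₀ hWx0]
    calc |bw D r p i x - bw D r p i y| ≤ D x y := bw_lip hD p i x y
      _ = 10 / r * D x y * (r / 10) := by field_simp
      _ ≤ 10 / r * D x y * Wx := by gcongr
  have h3 : |brho D r p i y * ((Wy - Wx) / Wx)| ≤ m * (10 / r) * D x y := by
    rw [abs_mul, abs_of_nonneg (brho_nonneg p i y), abs_div, abs_of_pos hWx0]
    calc brho D r p i y * (|Wy - Wx| / Wx) ≤ 1 * (|Wy - Wx| / Wx) := by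
          gcongr
          exact brho_le_one hr p hp i y
      _ = |Wy - Wx| / Wx := one_mul _
      _ ≤ m * (10 / r) * D x y := by
          rw [div_le_iff₀ hWx0]
          calc |Wy - Wx| ≤ m * D x y := hWW
            _ = m * (10 / r) * D x y * (r / 10) := by field_simp
            _ ≤ m * (10 / r) * D x y * Wx := by gcongr
  rw [h1]
  calc _ ≤ |(bw D r p i x - bw D r p i y) / Wx| + |brho D r p i y * ((Wy - Wx) / Wx)| := abs_add_le _ _
    _ ≤ _ := by linarith

end

section
variable {N : Type*} {D : N → N → ℝ} (hD : IsPD D) {r : ℝ} (hr : 0 < r) {m : ℕ} (p : Fin m → N)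
  (hp : ∀ x, ∃ j, D x (p j) < r / 10)
include hD hr hp

/-- An integral local cocycle on the net gives a Lipschitz circle valued map. -/
theorem exists_circle_map (n : Fin m → Fin m → ℤ)
    (hn : ∀ i j l, D (p i) (p j) < r → D (p j) (p l) < r → D (p i) (p l) < r → n i j + n j l = n i l) :
    ∃ (g : N → T1) (L : ℝ), 0 < L ∧ (∀ x y, ‖g x - g y‖ ≤ L * D x y) ∧
      ∀ x y, D x y < r / 10 → L * D x y < 1 / 2 → ∀ j, D x (p j) < r / 10 →
        dl (g x) (g y) = ∑ i, brho D r p i y * n j i - ∑ i, brho D r p i x * n j i := by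
  choose J hJ using hp
  set θ : Fin m → N → ℝ := fun j x => ∑ i, brho D r p i x * n j i with hθ
  have hp' : ∀ x, ∃ j, D x (p j) < r / 10 := fun x => ⟨J x, hJ x⟩
  set A : ℝ := ∑ j, ∑ i, |(n j i : ℝ)| with hA
  have hA0 : 0 ≤ A := Finset.sum_nonneg fun j _ => Finset.sum_nonneg fun i _ => abs_nonneg _
  have hAj : ∀ j, ∑ i, |(n j i : ℝ)| ≤ A := fun j =>
    Finset.single_le_sum (f := fun j => ∑ i, |(n j i : ℝ)|)
      (fun j _ => Finset.sum_nonneg fun i _ => abs_nonneg _) (Finset.mem_univ j)
  set L : ℝ := (m + 1) * (10 / r) * A + 10 / r with hL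
  have hL0 : 0 < L := by positivity
  have hθlip : ∀ j x y, |θ j x - θ j y| ≤ (m + 1) * (10 / r) * A * D x y := by
    intro j x y
    simp only [hθ]
    rw [← Finset.sum_sub_distrib]
    refine (Finset.abs_sum_le_sum_abs _ _).trans ?_
    have hd := hD.nonneg x y
    calc ∑ i, |brho D r p i x * n j i - brho D r p i y * n j i| ≤
        ∑ i, ((m + 1) * (10 / r) * D x y) * |(n j i : ℝ)| := by
          refine Finset.sum_le_sum fun i _ => ?_
          rw [← sub_mul, abs_mul]
          gcongr
          exact brho_lip hD hr p hp' i x y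
      _ = (m + 1) * (10 / r) * D x y * ∑ i, |(n j i : ℝ)| := by rw [← Finset.mul_sum]
      _ ≤ (m + 1) * (10 / r) * D x y * A := by gcongr; exact hAj j
      _ = _ := by ring
  have hkey : ∀ x j, D x (p j) < r / 5 → ((θ (J x) x : ℝ) : T1) = ((θ j x : ℝ) : T1) := by
    intro x j hj
    have h1 : θ j x = n j (J x) + θ (J x) x := by
      simp only [hθ]
      have h2 : (n j (J x) : ℝ) = ∑ i, brho D r p i x * n j (J x) := by
        rw [← Finset.sum_mul, brho_sum hr p hp' x, one_mul]
      rw [h2, ← Finset.sum_add_distrib]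
      refine Finset.sum_congr rfl fun i _ => ?_
      by_cases hi : r / 5 ≤ D x (p i)
      · rw [brho_zero p i x hi]; ring
      · push Not at hi
        rw [← mul_add]
        congr 1
        have hJx := hJ x
        have t1 := hD.tri (p j) x (p (J x))
        have t2 := hD.tri (p (J x)) x (p i)
        have t3 := hD.tri (p j) x (p i)
        rw [hD.symm (p j) x] at t1 t3
        rw [hD.symm (p (J x)) x] at t2
        have := hn j (J x) i (by linarith) (by linarith) (by linarith)
        rw [← this]
        push_cast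
        ring
    rw [h1, AddCircle.coe_add]
    have h3 : (((n j (J x) : ℤ) : ℝ) : T1) = 0 := by
      rw [AddCircle.coe_eq_zero_iff]
      exact ⟨n j (J x), by simp⟩
    rw [h3, zero_add]
  refine ⟨fun x => ((θ (J x) x : ℝ) : T1), L, hL0, fun x y => ?_, fun x y hxy hxy2 j hj => ?_⟩
  · have hd := hD.nonneg x y
    by_cases hxy : D x y < r / 10
    · have h1 := hkey y (J x) (by
        have := hD.tri y x (p (J x))
        rw [hD.symm y x] at this
        linarith [hJ x])
      show ‖((θ (J x) x : ℝ) : T1) - ((θ (J y) y : ℝ) : T1)‖ ≤ _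
      rw [h1, ← AddCircle.coe_sub]
      refine (norm_coe_le _).trans ?_
      refine (hθlip _ _ _).trans ?_
      have : 0 ≤ 10 / r * D x y := by positivity
      rw [hL]
      linarith
    · push Not at hxy
      have h1 : ‖((θ (J x) x : ℝ) : T1) - ((θ (J y) y : ℝ) : T1)‖ ≤ 1 / 2 := by
        rw [← abs_dl]; exact abs_dl_le _ _
      refine h1.trans ?_
      have h2 : 1 ≤ 10 / r * D x y := by
        calc (1 : ℝ) = 10 / r * (r / 10) := by field_simp
          _ ≤ 10 / r * D x y := by gcongr
      have h3 : 0 ≤ (m + 1) * (10 / r) * A * D x y := by positivity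
      rw [hL]
      linarith
  · have h1 := hkey x j (by linarith)
    have h2 := hkey y j (by
      have := hD.tri y x (p j)
      rw [hD.symm y x] at this
      linarith)
    show dl ((θ (J x) x : ℝ) : T1) ((θ (J y) y : ℝ) : T1) = θ j y - θ j x
    rw [h1, h2]
    unfold dl
    rw [← AddCircle.coe_sub, rep_eq]
    have hd := hD.nonneg x y
    have h3 := hθlip j y x
    rw [hD.symm y x] at h3
    refine lt_of_le_of_lt h3 (lt_of_le_of_lt ?_ hxy2)
    have : 0 ≤ 10 / r * D x y := by positivity
    rw [hL]
    linarith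

/-- Decomposition of a real cocycle. -/
theorem exists_decomp {V : Type*} [AddCommGroup V] [Module ℝ V] (β : N → N → V)
    (hβ : ∀ x y z, D x y < r → D y z < r → D x z < r → β x y + β y z = β x z) :
    ∃ (s : ℕ) (τ : Fin s → V) (g : Fin s → N → T1) (L : ℝ), 0 < L ∧
      (∀ k x y, ‖g k x - g k y‖ ≤ L * D x y) ∧
      ∃ η > 0, ∀ (M : ℕ) (x : ℕ → N), x M = x 0 → (∀ i < M, D (x i) (x (i + 1)) < η) →
        ∑ i ∈ Finset.range M, β (x i) (x (i + 1)) =
          ∑ k, (∑ i ∈ Finset.range M, dl (g k (x i)) (g k (x (i + 1)))) • τ k := by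
  classical
  set S : Set V := Set.range fun q : Fin m × Fin m => β (p q.1) (p q.2) with hS
  have hSfin : S.Finite := Set.finite_range _
  set Λ : Submodule ℤ V := Submodule.span ℤ S with hΛ
  have : Module.Finite ℤ Λ := Module.Finite.span_of_finite ℤ hSfin
  have : IsAddTorsionFree V := by
    constructor
    intro n hn x y hxy
    have h1 : (n : ℝ) • x = (n : ℝ) • y := by
      rw [Nat.cast_smul_eq_nsmul, Nat.cast_smul_eq_nsmul]; exact hxy
    have hn0 : (n : ℝ) ≠ 0 := Nat.cast_ne_zero.2 hn
    exact smul_right_injective V hn0 h1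
  have : Module.Free ℤ Λ := inferInstance
  have hmem : ∀ i j, β (p i) (p j) ∈ Λ := fun i j => Submodule.subset_span ⟨(i, j), rfl⟩
  set b := Module.finBasis ℤ Λ with hb
  set n : Fin (Module.finrank ℤ Λ) → Fin m → Fin m → ℤ := fun k i j => b.repr ⟨β (p i) (p j), hmem i j⟩ k with hn
  have hrep : ∀ i j, β (p i) (p j) = ∑ k, (n k i j : ℝ) • (b k : V) := by
    intro i j
    have h1 := congrArg (fun u : Λ => (u : V)) (b.sum_repr ⟨β (p i) (p j), hmem i j⟩)
    simp only [Submodule.coe_sum, Submodule.coe_smul] at h1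
    rw [← h1]
    refine Finset.sum_congr rfl fun k _ => ?_
    rw [Int.cast_smul_eq_zsmul]
  have hcoc : ∀ k i j l, D (p i) (p j) < r → D (p j) (p l) < r → D (p i) (p l) < r →
      n k i j + n k j l = n k i l := by
    intro k i j l h1 h2 h3
    have h4 : (⟨β (p i) (p j), hmem i j⟩ : Λ) + ⟨β (p j) (p l), hmem j l⟩ = ⟨β (p i) (p l), hmem i l⟩ :=
      Subtype.ext (hβ _ _ _ h1 h2 h3)
    simp only [hn]
    rw [← h4, map_add]
    rfl
  choose g L hL0 hLip hdl using fun k => exists_circle_map hD hr p hp (n k) (hcoc k)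
  set L' : ℝ := ∑ k, L k + 1 with hL'
  have hLs : 0 ≤ ∑ k, L k := Finset.sum_nonneg fun k _ => (hL0 k).le
  have hLk : ∀ k, L k ≤ L' := fun k => by
    have := Finset.single_le_sum (f := fun k => L k) (fun k _ => (hL0 k).le) (Finset.mem_univ k)
    linarith
  have hL'0 : 0 < L' := by positivity
  refine ⟨Module.finrank ℤ Λ, fun k => (b k : V), g, L', hL'0, fun k x y => ?_, min (r / 10) (1 / (2 * L')),
    lt_min (by positivity) (by positivity), fun M x hM hx => ?_⟩
  · refine (hLip k x y).trans ?_
    have := hD.nonneg x y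
    gcongr
    exact hLk k
  · set Θ : N → V := fun x => ∑ i, brho D r p i x • β x (p i) with hΘ
    have hz : ∀ z j, D z (p j) < r / 5 → ∑ i, brho D r p i z • β (p j) (p i) = β (p j) z + Θ z := by
      intro z j hj
      have h1 : β (p j) z = ∑ i, brho D r p i z • β (p j) z := by
        rw [← Finset.sum_smul, brho_sum hr p hp z, one_smul]
      rw [h1]
      simp only [hΘ]
      rw [← Finset.sum_add_distrib]
      refine Finset.sum_congr rfl fun i _ => ?_
      by_cases hi : r / 5 ≤ D z (p i)
      · rw [brho_zero p i z hi]; simp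
      · push Not at hi
        rw [← smul_add]
        congr 1
        have t3 := hD.tri (p j) z (p i)
        rw [hD.symm (p j) z] at t3
        rw [hβ _ _ _ (by rw [hD.symm]; linarith) (by linarith) (by linarith)]
    have hpair : ∀ x y, D x y < min (r / 10) (1 / (2 * L')) →
        β x y = ∑ k, dl (g k x) (g k y) • (b k : V) - (Θ y - Θ x) := by
      intro x y hxy
      have h1 : D x y < r / 10 := hxy.trans_le (min_le_left _ _)
      have h2 : D x y < 1 / (2 * L') := hxy.trans_le (min_le_right _ _)
      obtain ⟨j, hj⟩ := hp x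
      have hjy : D y (p j) < r / 5 := by
        have := hD.tri y x (p j)
        rw [hD.symm y x] at this
        linarith
      have h3 : ∀ k, dl (g k x) (g k y) =
          ∑ i, brho D r p i y * n k j i - ∑ i, brho D r p i x * n k j i := by
        intro k
        refine hdl k x y h1 ?_ j hj
        have hd := hD.nonneg x y
        calc L k * D x y ≤ L' * D x y := by gcongr; exact hLk k
          _ < 1 / 2 := by
            rw [lt_div_iff₀ (by positivity)] at h2
            linarith
      have h4 : ∀ z, ∑ k, (∑ i, brho D r p i z * n k j i) • (b k : V) =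
          ∑ i, brho D r p i z • β (p j) (p i) := by
        intro z
        simp only [hrep, Finset.smul_sum, Finset.sum_smul]
        rw [Finset.sum_comm]
        refine Finset.sum_congr rfl fun i _ => Finset.sum_congr rfl fun k _ => ?_
        rw [smul_smul]
      have h5 : β (p j) x + β x y = β (p j) y :=
        hβ _ _ _ (by rw [hD.symm]; linarith) (by linarith) (by rw [hD.symm]; linarith)
      simp only [h3, sub_smul]
      rw [Finset.sum_sub_distrib, h4, h4, hz y j hjy, hz x j (by linarith), ← h5]
      abel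
    have hsum : ∑ i ∈ Finset.range M, β (x i) (x (i + 1)) =
        ∑ i ∈ Finset.range M, (∑ k, dl (g k (x i)) (g k (x (i + 1))) • (b k : V) - (Θ (x (i + 1)) - Θ (x i))) :=
      Finset.sum_congr rfl fun i hi => hpair _ _ (hx i (Finset.mem_range.1 hi))
    rw [hsum, Finset.sum_sub_distrib, Finset.sum_range_sub (fun i => Θ (x i)), hM, sub_self, sub_zero,
      Finset.sum_comm]
    refine Finset.sum_congr rfl fun k _ => ?_
    rw [Finset.sum_smul]

end

end Pool.Agent.Q74.Gap
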