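import Mathlib
import Pool.Agent.Q74.Gap.Net
import Pool.Agent.Q74.Gap.Energy

/-! # The core estimate, and homotopy invariance -/

set_option autoImplicit false

open MeasureTheory Set Filter Topology
open scoped ENNReal unitInterval

namespace Pool.Agent.Q74.Gap

/-- Comparison of two circle valued loops that are close to each other at the dyadic points. -/
theorem dsum_close {h h' : ℝ → T1} (hper : h 1 = h 0) (hper' : h' 1 = h' 0) (n : ℕ)
    (hf : ∀ i : ℕ, i < 2 ^ n → ‖h (((i : ℝ) + 1) / 2 ^ n) - h ((i : ℝ) / 2 ^ n)‖ < 1 / 5)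
    (hf' : ∀ i : ℕ, i < 2 ^ n → ‖h' (((i : ℝ) + 1) / 2 ^ n) - h' ((i : ℝ) / 2 ^ n)‖ < 1 / 5)
    (hc : ∀ i : ℕ, i ≤ 2 ^ n → ‖h' ((i : ℝ) / 2 ^ n) - h ((i : ℝ) / 2 ^ n)‖ < 1 / 5) :
    dsum h n = dsum h' n := by
  have hp : (0 : ℝ) < 2 ^ n := by positivity
  have hz := sum_shift (F := fun i : ℕ => dl (h ((i : ℝ) / 2 ^ n)) (h' ((i : ℝ) / 2 ^ n))) (N := 2 ^ n) (by
    show dl (h (((2 ^ n : ℕ) : ℝ) / 2 ^ n)) (h' (((2 ^ n : ℕ) : ℝ) / 2 ^ n)) =
      dl (h (((0 : ℕ) : ℝ) / 2 ^ n)) (h' (((0 : ℕ) : ℝ) / 2 ^ n))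
    push_cast
    rw [div_self hp.ne', zero_div, hper, hper'])
  unfold dsum
  rw [← sub_eq_zero, ← Finset.sum_sub_distrib]
  have hq : ∀ i ∈ Finset.range (2 ^ n), dl (h ((i : ℝ) / 2 ^ n)) (h (((i : ℝ) + 1) / 2 ^ n)) -
      dl (h' ((i : ℝ) / 2 ^ n)) (h' (((i : ℝ) + 1) / 2 ^ n)) = dl (h ((i : ℝ) / 2 ^ n)) (h' ((i : ℝ) / 2 ^ n)) -
        dl (h (((i + 1 : ℕ) : ℝ) / 2 ^ n)) (h' (((i + 1 : ℕ) : ℝ) / 2 ^ n)) := by
    intro i hi
    have hi1 : i < 2 ^ n := Finset.mem_range.1 hi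
    have c1 := hc i hi1.le
    have c2 := hc (i + 1) hi1
    have c3 := hf i hi1
    have c5 := hf' i hi1
    push_cast at c2 ⊢
    rw [← abs_dl] at c1 c2 c3 c5
    have hzero : ((dl (h ((i : ℝ) / 2 ^ n)) (h' ((i : ℝ) / 2 ^ n)) +
        dl (h' ((i : ℝ) / 2 ^ n)) (h' (((i : ℝ) + 1) / 2 ^ n)) -
        dl (h (((i : ℝ) + 1) / 2 ^ n)) (h' (((i : ℝ) + 1) / 2 ^ n)) -
        dl (h ((i : ℝ) / 2 ^ n)) (h (((i : ℝ) + 1) / 2 ^ n)) : ℝ) : T1) = 0 := by
      simp only [AddCircle.coe_sub, AddCircle.coe_add, coe_dl]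
      abel
    have hlt : |dl (h ((i : ℝ) / 2 ^ n)) (h' ((i : ℝ) / 2 ^ n)) +
        dl (h' ((i : ℝ) / 2 ^ n)) (h' (((i : ℝ) + 1) / 2 ^ n)) -
        dl (h (((i : ℝ) + 1) / 2 ^ n)) (h' (((i : ℝ) + 1) / 2 ^ n)) -
        dl (h ((i : ℝ) / 2 ^ n)) (h (((i : ℝ) + 1) / 2 ^ n))| < 1 := by
      rw [abs_lt] at c1 c2 c3 c5 ⊢
      constructor <;> linarith [c1.1, c1.2, c2.1, c2.2, c3.1, c3.2, c5.1, c5.2]
    have := abs_int_lt_one hzero hlt
    linarith
  rw [Finset.sum_congr rfl hq, Finset.sum_sub_distrib, hz, sub_self]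

theorem circle_dist (a b : Circle) : dist a b = ‖(a : ℂ) - b‖ := by
  rw [← dist_eq_norm]
  rfl

/-- Homotopy invariance of the degree of circle valued loops. -/
theorem dsum_homotopy (K : C(I × Circle, T1)) :
    ∃ n0 : ℕ, ∀ n, n0 ≤ n → dsum (fun t => K (0, Circle.exp (2 * Real.pi * t))) n =
      dsum (fun t => K (1, Circle.exp (2 * Real.pi * t))) n := by
  have hpi := Real.pi_pos
  have huc := CompactSpace.uniformContinuous_of_continuous K.continuous
  obtain ⟨δ, hδ, huc⟩ := Metric.uniformContinuous_iff.1 huc (1 / 5) (by norm_num)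
  obtain ⟨n1, hn1⟩ := exists_pow_lt_of_lt_one (show 0 < δ / (2 * Real.pi) by positivity)
    (show (1 / 2 : ℝ) < 1 by norm_num)
  refine ⟨n1, fun n hn => ?_⟩
  have hp : (0 : ℝ) < 2 ^ n := by positivity
  have hn1' : 2 * Real.pi * (1 / 2 ^ n) < δ := by
    have : (1 : ℝ) / 2 ^ n < δ / (2 * Real.pi) := by
      calc (1 : ℝ) / 2 ^ n = (1 / 2) ^ n := by rw [div_pow, one_pow]
        _ ≤ (1 / 2) ^ n1 := pow_le_pow_of_le_one (by norm_num) (by norm_num) hn
        _ < _ := hn1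
    rw [lt_div_iff₀ (by positivity)] at this
    linarith
  have hfine : ∀ s : I, ∀ i : ℕ, i < 2 ^ n →
      ‖K (s, Circle.exp (2 * Real.pi * (((i : ℝ) + 1) / 2 ^ n))) - K (s, Circle.exp (2 * Real.pi * ((i : ℝ) / 2 ^ n)))‖
        < 1 / 5 := by
    intro s i _
    rw [← dist_eq_norm]
    refine huc ?_
    rw [Prod.dist_eq, dist_self]
    refine max_lt hδ ?_
    have h1 := chord_le (2 * Real.pi * (((i : ℝ) + 1) / 2 ^ n)) (2 * Real.pi * ((i : ℝ) / 2 ^ n))
    have h2 : dist (Circle.exp (2 * Real.pi * (((i : ℝ) + 1) / 2 ^ n))) (Circle.exp (2 * Real.pi * ((i : ℝ) / 2 ^ n)))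
        = ‖(Circle.exp (2 * Real.pi * (((i : ℝ) + 1) / 2 ^ n)) : ℂ) - Circle.exp (2 * Real.pi * ((i : ℝ) / 2 ^ n))‖ := by
      exact circle_dist _ _
    rw [h2]
    refine h1.trans_lt ?_
    rw [show 2 * Real.pi * (((i : ℝ) + 1) / 2 ^ n) - 2 * Real.pi * ((i : ℝ) / 2 ^ n) = 2 * Real.pi * (1 / 2 ^ n) by ring,
      abs_of_pos (by positivity)]
    exact hn1'
  have hlc : IsLocallyConstant fun s : I => dsum (fun t => K (s, Circle.exp (2 * Real.pi * t))) n := by
    rw [IsLocallyConstant.iff_eventually_eq]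
    intro s
    have hev : ∀ᶠ s' in 𝓝 s, ∀ i ∈ Finset.range (2 ^ n + 1),
        ‖K (s', Circle.exp (2 * Real.pi * ((i : ℝ) / 2 ^ n))) - K (s, Circle.exp (2 * Real.pi * ((i : ℝ) / 2 ^ n)))‖
          < 1 / 5 := by
      rw [Finset.eventually_all]
      intro i _
      have hcont : Continuous fun s' : I => ‖K (s', Circle.exp (2 * Real.pi * ((i : ℝ) / 2 ^ n))) -
          K (s, Circle.exp (2 * Real.pi * ((i : ℝ) / 2 ^ n)))‖ := by fun_prop
      refine (hcont.tendsto s).eventually_lt_const ?_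
      rw [sub_self, norm_zero]
      norm_num
    filter_upwards [hev] with s' hs'
    symm
    refine dsum_close (h := fun t => K (s, Circle.exp (2 * Real.pi * t)))
      (h' := fun t => K (s', Circle.exp (2 * Real.pi * t))) ?_ ?_ n (hfine s) (hfine s') fun i hi =>
        hs' i (Finset.mem_range.2 (Nat.lt_succ_of_le hi))
    · simp only [mul_one, mul_zero, Circle.exp_two_pi, Circle.exp_zero]
    · simp only [mul_one, mul_zero, Circle.exp_two_pi, Circle.exp_zero]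
  exact hlc.apply_eq_of_preconnectedSpace 0 1

/-- The core bound. -/
theorem core_bound {N : Type*} {D : N → N → ℝ} (hD : IsPD D) {r : ℝ} (hr : 0 < r) {m : ℕ} (p : Fin m → N)
    (hp : ∀ x, ∃ j, D x (p j) < r / 10) {V : Type*} [NormedAddCommGroup V] [NormedSpace ℝ V] (β : N → N → V)
    (hβ : ∀ x y z, D x y < r → D y z < r → D x z < r → β x y + β y z = β x z) :
    ∃ C > 0, ∃ ε0 > 0, ∀ ε : ℝ, 0 < ε → ε < ε0 → ∀ f : Circle → N,
      Continuous (fun q : Circle × Circle => D (f q.1) (f q.2)) →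
      ∀ f' : Circle → N, Continuous (fun q : Circle × Circle => D (f' q.1) (f' q.2)) →
      (∃ H : I × Circle → N, Continuous (fun q : (I × Circle) × (I × Circle) => D (H q.1) (H q.2)) ∧
        (∀ z, H (0, z) = f z) ∧ ∀ z, H (1, z) = f' z) →
      ∃ n0, ∀ n, n0 ≤ n → ENNReal.ofReal
        ‖∑ i ∈ Finset.range (2 ^ n), β (f' (Circle.exp (2 * Real.pi * ((i : ℝ) / 2 ^ n))))
          (f' (Circle.exp (2 * Real.pi * (((i : ℝ) + 1) / 2 ^ n))))‖ ≤
        ENNReal.ofReal (C * ε) * circE fun z w => ε ≤ D (f z) (f w) := by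
  obtain ⟨s, τ, g, L, hL0, hL, η, hη, hdec⟩ := exists_decomp hD hr p hp β hβ
  set C : ℝ := 5120 / 3 * L * ∑ k, ‖τ k‖ + 1 with hC
  have hT : 0 ≤ ∑ k, ‖τ k‖ := Finset.sum_nonneg fun k _ => norm_nonneg _
  have hpi := Real.pi_pos
  have hcont : ∀ {Y : Type} [TopologicalSpace Y] (F : Y → N), Continuous (fun q : Y × Y => D (F q.1) (F q.2)) →
      ∀ k, Continuous fun y => g k (F y) := by
    intro Y _ F hF k
    rw [continuous_iff_continuousAt]
    intro y
    rw [ContinuousAt, tendsto_iff_dist_tendsto_zero]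
    have h1 : Tendsto (fun y' => L * D (F y') (F y)) (𝓝 y) (𝓝 0) := by
      have h2 : Continuous fun y' => L * D (F y') (F y) :=
        continuous_const.mul (hF.comp (continuous_id.prodMk continuous_const))
      have h3 := h2.tendsto y
      rw [hD.self, mul_zero] at h3
      exact h3
    refine squeeze_zero (fun _ => dist_nonneg) (fun y' => ?_) h1
    rw [dist_eq_norm]
    exact hL k _ _
  refine ⟨C, by positivity, 1 / (10 * L), by positivity, fun ε hε hε0 f hf f' hf' hH => ?_⟩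
  obtain ⟨H, hHc, hH0, hH1⟩ := hH
  have hεL : 10 * L * ε ≤ 1 := by
    rw [lt_div_iff₀ (by positivity)] at hε0
    linarith
  -- the bound for each circle valued map
  have h1 : ∀ k, ∃ n0, ∀ n, n0 ≤ n → ENNReal.ofReal |dsum (fun t => g k (f' (Circle.exp (2 * Real.pi * t)))) n| ≤
      ENNReal.ofReal (5120 / 3 * L * ε) * circE fun z w => ε ≤ D (f z) (f w) := by
    intro k
    have hfk := hcont f hf k
    obtain ⟨n1, hn1⟩ := gap_power D (fun t => f (Circle.exp (2 * Real.pi * t))) (g k) L hL0 (hL k)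
      (hfk.comp (Circle.exp.continuous.comp (continuous_const.mul continuous_id)))
      (fun t => by
        have : Circle.exp (2 * Real.pi * (t + 1)) = Circle.exp (2 * Real.pi * t) := by
          rw [mul_add, mul_one]; exact Circle.periodic_exp _
        simp only [this]) ε hε hεL
    obtain ⟨n2, hn2⟩ := dsum_homotopy ⟨fun q => g k (H q), hcont H hHc k⟩
    refine ⟨max n1 n2, fun n hn => ?_⟩
    have h2 := hn2 n ((le_max_right _ _).trans hn)
    simp only [ContinuousMap.coe_mk, hH0, hH1] at h2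
    rw [← h2]
    refine (hn1 n ((le_max_left _ _).trans hn)).trans ?_
    refine mul_le_mul' le_rfl ?_
    exact unit_le_circE fun z w => ε ≤ D (f z) (f w)
  choose n1 hn1 using h1
  -- the mesh for `f'`
  have hmesh : ∃ n2 : ℕ, ∀ n, n2 ≤ n → ∀ i : ℕ, i < 2 ^ n →
      D (f' (Circle.exp (2 * Real.pi * ((i : ℝ) / 2 ^ n)))) (f' (Circle.exp (2 * Real.pi * (((i : ℝ) + 1) / 2 ^ n)))) < η := by
    have huc := CompactSpace.uniformContinuous_of_continuous hf'
    obtain ⟨δ, hδ, huc⟩ := Metric.uniformContinuous_iff.1 huc η hη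
    obtain ⟨n2, hn2⟩ := exists_pow_lt_of_lt_one (show 0 < δ / (2 * Real.pi) by positivity)
      (show (1 / 2 : ℝ) < 1 by norm_num)
    refine ⟨n2, fun n hn i _ => ?_⟩
    have hn1' : 2 * Real.pi * (1 / 2 ^ n) < δ := by
      have : (1 : ℝ) / 2 ^ n < δ / (2 * Real.pi) := by
        calc (1 : ℝ) / 2 ^ n = (1 / 2) ^ n := by rw [div_pow, one_pow]
          _ ≤ (1 / 2) ^ n2 := pow_le_pow_of_le_one (by norm_num) (by norm_num) hn
          _ < _ := hn2
      rw [lt_div_iff₀ (by positivity)] at this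
      linarith
    set a := Circle.exp (2 * Real.pi * ((i : ℝ) / 2 ^ n)) with ha
    set b := Circle.exp (2 * Real.pi * (((i : ℝ) + 1) / 2 ^ n)) with hb
    have hab : dist a b < δ := by
      have h2 : dist a b = ‖(a : ℂ) - b‖ := circle_dist _ _
      rw [h2]
      refine (chord_le _ _).trans_lt ?_
      rw [show 2 * Real.pi * ((i : ℝ) / 2 ^ n) - 2 * Real.pi * (((i : ℝ) + 1) / 2 ^ n) = -(2 * Real.pi * (1 / 2 ^ n)) by ring,
        abs_neg, abs_of_pos (by positivity)]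
      exact hn1'
    have h3 := @huc (a, b) (a, a) (by rw [Prod.dist_eq, dist_self, dist_comm b a]; exact max_lt hδ hab)
    simp only [hD.self, Real.dist_eq, sub_zero] at h3
    exact (le_abs_self _).trans_lt h3
  obtain ⟨n2, hn2⟩ := hmesh
  refine ⟨(∑ k, n1 k) + n2, fun n hn => ?_⟩
  have hnk : ∀ k, n1 k ≤ n := fun k =>
    (Finset.single_le_sum (f := n1) (fun _ _ => Nat.zero_le _) (Finset.mem_univ k)).trans (by omega)
  have h3 := hdec (2 ^ n) (fun i => f' (Circle.exp (2 * Real.pi * ((i : ℝ) / 2 ^ n)))) (by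
    have hp : (0 : ℝ) < 2 ^ n := by positivity
    push_cast
    rw [div_self hp.ne', zero_div, mul_one, mul_zero, Circle.exp_two_pi, Circle.exp_zero]) (fun i hi => by
      push_cast
      exact hn2 n (by omega) i hi)
  push_cast at h3
  rw [h3]
  calc ENNReal.ofReal ‖∑ k, (∑ i ∈ Finset.range (2 ^ n), dl (g k (f' (Circle.exp (2 * Real.pi * ((i : ℝ) / 2 ^ n)))))
          (g k (f' (Circle.exp (2 * Real.pi * (((i : ℝ) + 1) / 2 ^ n)))))) • τ k‖
      ≤ ENNReal.ofReal (∑ k, |dsum (fun t => g k (f' (Circle.exp (2 * Real.pi * t)))) n| * ‖τ k‖) := by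
        refine ENNReal.ofReal_le_ofReal ((norm_sum_le _ _).trans (le_of_eq ?_))
        refine Finset.sum_congr rfl fun k _ => ?_
        rw [norm_smul, Real.norm_eq_abs]
        rfl
    _ = ∑ k, ENNReal.ofReal |dsum (fun t => g k (f' (Circle.exp (2 * Real.pi * t)))) n| * ENNReal.ofReal ‖τ k‖ := by
        rw [ENNReal.ofReal_sum_of_nonneg fun k _ => by positivity]
        refine Finset.sum_congr rfl fun k _ => ENNReal.ofReal_mul (abs_nonneg _)
    _ ≤ ∑ k, (ENNReal.ofReal (5120 / 3 * L * ε) * circE fun z w => ε ≤ D (f z) (f w)) * ENNReal.ofReal ‖τ k‖ := by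
        refine Finset.sum_le_sum fun k _ => ?_
        exact mul_le_mul' (hn1 k n (hnk k)) le_rfl
    _ = ENNReal.ofReal (5120 / 3 * L * ε * ∑ k, ‖τ k‖) * circE fun z w => ε ≤ D (f z) (f w) := by
        rw [← Finset.mul_sum, ← ENNReal.ofReal_sum_of_nonneg fun k _ => norm_nonneg _,
          ENNReal.ofReal_mul (p := 5120 / 3 * L * ε) (by positivity), mul_right_comm]
    _ ≤ _ := by
        refine mul_le_mul' (ENNReal.ofReal_le_ofReal ?_) le_rfl
        rw [hC]
        nlinarith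

end Pool.Agent.Q74.Gap
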