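import Mathlib

/-! # Closed one forms, local primitives and integrals along loops -/

set_option autoImplicit false

open MeasureTheory Set Filter Topology
open scoped ENNReal Manifold ContDiff

namespace Pool.Agent.Q74.Gap

section
variable {E : Type*} [NormedAddCommGroup E] [NormedSpace ℝ E] {H : Type*} [TopologicalSpace H]
  (I : ModelWithCorners ℝ E H) {M : Type*} [EMetricSpace M] [ChartedSpace H M]

/-- A smooth closed `1`-form: locally it is the differential of a smooth function. -/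
def ClosedForm (α : ∀ x : M, TangentSpace I x →L[ℝ] ℝ) : Prop :=
  ∀ x : M, ∃ U : Set M, IsOpen U ∧ x ∈ U ∧ ∃ F : M → ℝ,
    ContMDiffOn I 𝓘(ℝ, ℝ) ∞ F U ∧ ∀ y ∈ U, mfderiv I 𝓘(ℝ, ℝ) F y = α y

/-- The integral over the unit circle of the pull back of `α` by `f`. -/
noncomputable def loopIntegral (α : ∀ x : M, TangentSpace I x →L[ℝ] ℝ) (f : Circle → M) : ℝ :=
  ∫ t in (0 : ℝ)..(2 * Real.pi),
    α (f (Circle.exp t)) (mfderiv 𝓘(ℝ, ℝ) I (fun t : ℝ => f (Circle.exp t)) t (1 : ℝ))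

variable {I}

/-- Functions with the same differential near `q` differ by a constant near `q`. -/
theorem exists_nhds_const [IsManifold I ∞ M] [I.Boundaryless] (q : M) (δ : ℝ≥0∞) (hδ : 0 < δ) :
    ∃ O : Set M, IsOpen O ∧ q ∈ O ∧ O ⊆ Metric.eball q δ ∧ ∀ F1 F2 : M → ℝ,
      (∀ y ∈ O, MDifferentiableAt I 𝓘(ℝ, ℝ) F1 y) → (∀ y ∈ O, MDifferentiableAt I 𝓘(ℝ, ℝ) F2 y) →
      (∀ y ∈ O, mfderiv I 𝓘(ℝ, ℝ) F1 y = mfderiv I 𝓘(ℝ, ℝ) F2 y) →
      ∀ y ∈ O, ∀ z ∈ O, F1 z - F1 y = F2 z - F2 y := by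
  set φ := extChartAt I q with hφ
  have htop : IsOpen φ.target := isOpen_extChartAt_target q
  have hqt : φ q ∈ φ.target := mem_extChartAt_target q
  have hcs : ContinuousOn φ.symm φ.target := continuousOn_extChartAt_symm q
  have hball : Metric.eball q δ ∈ 𝓝 (φ.symm (φ q)) := by
    rw [extChartAt_to_inv]
    exact Metric.eball_mem_nhds q hδ
  have hn : φ.target ∩ φ.symm ⁻¹' (Metric.eball q δ) ∈ 𝓝 (φ q) :=
    inter_mem (htop.mem_nhds hqt) ((hcs.continuousAt (htop.mem_nhds hqt)).preimage_mem_nhds hball)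
  obtain ⟨ρ, hρ, hsub⟩ := Metric.mem_nhds_iff.1 hn
  refine ⟨φ.source ∩ φ ⁻¹' Metric.ball (φ q) ρ, ?_, ⟨mem_extChartAt_source q, Metric.mem_ball_self hρ⟩, ?_, ?_⟩
  · exact (continuousOn_extChartAt q).isOpen_inter_preimage (isOpen_extChartAt_source q) Metric.isOpen_ball
  · rintro y ⟨hy1, hy2⟩
    have := (hsub hy2).2
    rw [mem_preimage, φ.left_inv hy1] at this
    exact this
  · intro F1 F2 hF1 hF2 hF y hy z hz
    have hmem : ∀ c ∈ Metric.ball (φ q) ρ, φ.symm c ∈ φ.source ∩ φ ⁻¹' Metric.ball (φ q) ρ := by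
      intro c hc
      have h1 := (hsub hc).1
      refine ⟨φ.map_target h1, ?_⟩
      rw [mem_preimage, φ.right_inv h1]
      exact hc
    have hder : ∀ c ∈ Metric.ball (φ q) ρ,
        HasFDerivWithinAt (fun c => F1 (φ.symm c) - F2 (φ.symm c)) (0 : E →L[ℝ] ℝ) (Metric.ball (φ q) ρ) c := by
      intro c hc
      have h1 := (hsub hc).1
      have hs : MDifferentiableAt 𝓘(ℝ, E) I φ.symm c := by
        have := (contMDiffOn_extChartAt_symm (I := I) (n := ∞) q).contMDiffAt (htop.mem_nhds h1)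
        exact this.mdifferentiableAt (by simp)
      have d1 := ((hF1 _ (hmem c hc)).hasMFDerivAt.comp c hs.hasMFDerivAt)
      have d2 := ((hF2 _ (hmem c hc)).hasMFDerivAt.comp c hs.hasMFDerivAt)
      rw [hF _ (hmem c hc)] at d1
      have d1' := hasMFDerivAt_iff_hasFDerivAt.1 d1
      have d2' := hasMFDerivAt_iff_hasFDerivAt.1 d2
      exact ((d1'.sub d2').hasFDerivWithinAt (s := Metric.ball (φ q) ρ)).congr_fderiv (sub_self _)
    have hconst := (convex_ball (φ q) ρ).norm_image_sub_le_of_norm_hasFDerivWithin_le (C := 0) hder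
      (fun c _ => by simp) hy.2 hz.2
    rw [zero_mul, norm_le_zero_iff] at hconst
    rw [φ.left_inv hy.1, φ.left_inv hz.1] at hconst
    linarith

/-- The fundamental theorem of calculus for a primitive along a `C¹` curve. -/
theorem integral_primitive {α : ∀ x : M, TangentSpace I x →L[ℝ] ℝ} {γ : ℝ → M} (hγ : ContMDiff 𝓘(ℝ, ℝ) I 1 γ)
    {U : Set M} (hU : IsOpen U) {F : M → ℝ} (hF : ContMDiffOn I 𝓘(ℝ, ℝ) ∞ F U)
    (hα : ∀ y ∈ U, mfderiv I 𝓘(ℝ, ℝ) F y = α y) {a b : ℝ} (hab : ∀ t ∈ uIcc a b, γ t ∈ U) :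
    IntervalIntegrable (fun t => α (γ t) (mfderiv 𝓘(ℝ, ℝ) I γ t (1 : ℝ))) volume a b ∧
      ∫ t in a..b, α (γ t) (mfderiv 𝓘(ℝ, ℝ) I γ t (1 : ℝ)) = F (γ b) - F (γ a) := by
  have hO : IsOpen (γ ⁻¹' U) := hU.preimage hγ.continuous
  have hc1 : ContMDiffOn 𝓘(ℝ, ℝ) 𝓘(ℝ, ℝ) 1 (fun t => F (γ t)) (γ ⁻¹' U) :=
    (hF.of_le (by exact_mod_cast le_top)).comp hγ.contMDiffOn (fun t ht => ht)
  have hc2 : ContDiffOn ℝ 1 (fun t => F (γ t)) (γ ⁻¹' U) := contMDiffOn_iff_contDiffOn.1 hc1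
  have hd : ∀ t, γ t ∈ U → HasDerivAt (fun t => F (γ t)) (α (γ t) (mfderiv 𝓘(ℝ, ℝ) I γ t (1 : ℝ))) t := by
    intro t ht
    have h1 : MDifferentiableAt I 𝓘(ℝ, ℝ) F (γ t) :=
      (hF.contMDiffAt (hU.mem_nhds ht)).mdifferentiableAt (by simp)
    have h2 : MDifferentiableAt 𝓘(ℝ, ℝ) I γ t := (hγ t).mdifferentiableAt (by simp)
    have h3 := h1.hasMFDerivAt.comp t h2.hasMFDerivAt
    rw [hα _ ht] at h3
    have h4 : HasFDerivAt (fun t => F (γ t)) (((α (γ t)).comp (mfderiv 𝓘(ℝ, ℝ) I γ t) : ℝ →L[ℝ] ℝ)) t :=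
      hasMFDerivAt_iff_hasFDerivAt.1 h3
    have h5 := h4.hasDerivAt
    exact h5
  have hcd : ContinuousOn (fun t => α (γ t) (mfderiv 𝓘(ℝ, ℝ) I γ t (1 : ℝ))) (uIcc a b) := by
    have h1 : ContinuousOn (deriv fun t => F (γ t)) (γ ⁻¹' U) := hc2.continuousOn_deriv_of_isOpen hO le_rfl
    refine (h1.mono hab).congr fun t ht => ?_
    exact ((hd t (hab t ht)).deriv).symm
  exact ⟨hcd.intervalIntegrable, intervalIntegral.integral_eq_sub_of_hasDerivAt (fun t ht => hd t (hab t ht))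
    hcd.intervalIntegrable⟩

end

end Pool.Agent.Q74.Gap
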