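import Mathlib
import Pool.Agent.Q74.Gap.Core
import Pool.Agent.Q74.Gap.Forms

/-! # The scaled gap estimate for loops -/

set_option autoImplicit false

open MeasureTheory Set Filter Topology
open scoped ENNReal Manifold ContDiff

namespace Pool.Agent.Q74.Gap

/-- The scaled gap potential of a map `f` from the unit circle (arc length parameters `s`, `t`,
chord distance `|exp (it) - exp (is)|`). -/
noncomputable def gapEnergy {N : Type*} [PseudoEMetricSpace N] (ε : ℝ) (f : Circle → N) : ℝ≥0∞ :=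
  ∫⁻ s in Ioc (0 : ℝ) (2 * Real.pi), ∫⁻ t in Ioc (0 : ℝ) (2 * Real.pi),
    open Classical in if ENNReal.ofReal ε ≤ edist (f (Circle.exp s)) (f (Circle.exp t)) then
      ENNReal.ofReal (ε / ‖(Circle.exp s : ℂ) - Circle.exp t‖ ^ 2) else 0

theorem circE_le {N : Type*} [PseudoEMetricSpace N] {ε : ℝ} (hε : 0 < ε) (f : Circle → N)
    (P : Circle → Circle → Prop) (hP : ∀ z w, P z w → ENNReal.ofReal ε ≤ edist (f z) (f w)) {C : ℝ} (hC : 0 ≤ C) :
    ENNReal.ofReal (C * ε) * circE P ≤ ENNReal.ofReal C * gapEnergy ε f := by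
  rw [ENNReal.ofReal_mul hC, mul_assoc]
  refine mul_le_mul' le_rfl ?_
  unfold circE gapEnergy
  rw [← lintegral_const_mul' _ _ ENNReal.ofReal_ne_top]
  refine lintegral_mono fun s => ?_
  rw [← lintegral_const_mul' _ _ ENNReal.ofReal_ne_top]
  refine lintegral_mono fun t => ?_
  by_cases h : P (Circle.exp s) (Circle.exp t)
  · rw [if_pos h, if_pos (hP _ _ h), ← ENNReal.ofReal_mul hε.le]
    refine ENNReal.ofReal_le_ofReal (le_of_eq ?_)
    ring
  · rw [if_neg h, mul_zero]
    exact zero_le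

/-- The truncated distance. -/
noncomputable def Dm {M : Type*} [PseudoEMetricSpace M] (x y : M) : ℝ := (min (edist x y) 1).toReal

section
variable {M : Type*} [PseudoEMetricSpace M]

theorem ofReal_Dm (x y : M) : ENNReal.ofReal (Dm x y) = min (edist x y) 1 :=
  ENNReal.ofReal_toReal (ne_top_of_le_ne_top ENNReal.one_ne_top (min_le_right _ _))

theorem isPD_Dm : IsPD (Dm (M := M)) where
  nonneg _ _ := ENNReal.toReal_nonneg
  self x := by simp [Dm]
  symm x y := by rw [Dm, Dm, edist_comm]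
  tri x y z := by
    have h1 : min (edist x z) 1 ≤ min (edist x y) 1 + min (edist y z) 1 := by
      rcases le_total (edist x y) 1 with h | h
      · rcases le_total (edist y z) 1 with h' | h'
        · rw [min_eq_left h, min_eq_left h']
          exact (min_le_left _ _).trans (edist_triangle _ _ _)
        · rw [min_eq_right h']
          exact (min_le_right _ _).trans le_add_self
      · rw [min_eq_right h]
        exact (min_le_right _ _).trans le_self_add
    have hne : ∀ a b : M, min (edist a b) 1 ≠ ⊤ := fun a b =>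
      ne_top_of_le_ne_top ENNReal.one_ne_top (min_le_right _ _)
    rw [Dm, Dm, Dm, ← ENNReal.toReal_add (hne _ _) (hne _ _)]
    exact ENNReal.toReal_mono (ENNReal.add_ne_top.2 ⟨hne _ _, hne _ _⟩) h1

theorem edist_lt_of_Dm_lt {x y : M} {ρ : ℝ} (hρ : ρ ≤ 1) (h : Dm x y < ρ) : edist x y < ENNReal.ofReal ρ := by
  have h0 : 0 < ρ := lt_of_le_of_lt (isPD_Dm.nonneg x y) h
  have h1 : min (edist x y) 1 < ENNReal.ofReal ρ := by
    rw [← ofReal_Dm]
    exact (ENNReal.ofReal_lt_ofReal_iff h0).2 h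
  rcases min_lt_iff.1 h1 with h2 | h2
  · exact h2
  · exact absurd h2 (not_lt.2 (ENNReal.ofReal_le_one.2 hρ))

theorem Dm_lt_of_edist_lt {x y : M} {ρ : ℝ} (h : edist x y < ENNReal.ofReal ρ) : Dm x y < ρ := by
  have h1 : min (edist x y) 1 < ENNReal.ofReal ρ := lt_of_le_of_lt (min_le_left _ _) h
  exact ENNReal.toReal_lt_of_lt_ofReal h1

theorem continuous_Dm {Y : Type*} [TopologicalSpace Y] {F : Y → M} (hF : Continuous F) :
    Continuous fun q : Y × Y => Dm (F q.1) (F q.2) := by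
  have h1 : Continuous fun q : Y × Y => min (edist (F q.1) (F q.2)) 1 := by fun_prop
  exact ENNReal.continuousOn_toReal.comp_continuous h1 fun q =>
    ne_top_of_le_ne_top ENNReal.one_ne_top (min_le_right _ _)

theorem exists_net [CompactSpace M] {ρ : ℝ} (hρ : 0 < ρ) :
    ∃ (m : ℕ) (p : Fin m → M), ∀ x, ∃ j, Dm x (p j) < ρ := by
  obtain ⟨t, ht⟩ := isCompact_univ.elim_nhds_subcover (fun x : M => Metric.eball x (ENNReal.ofReal ρ))
    (fun x _ => Metric.eball_mem_nhds x (ENNReal.ofReal_pos.2 hρ))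
  refine ⟨t.card, fun j => (t.equivFin.symm j : M), fun x => ?_⟩
  have hx := ht.2 (mem_univ x)
  rw [mem_iUnion₂] at hx
  obtain ⟨y, hy, hxy⟩ := hx
  refine ⟨t.equivFin ⟨y, hy⟩, ?_⟩
  simp only [Equiv.symm_apply_apply]
  exact Dm_lt_of_edist_lt hxy

end

section
variable {E : Type*} [NormedAddCommGroup E] [NormedSpace ℝ E] {H : Type*} [TopologicalSpace H]
  {I : ModelWithCorners ℝ E H} {M : Type*} [EMetricSpace M] [ChartedSpace H M]

theorem exists_real_le {δ : ℝ≥0∞} (hδ : 0 < δ) : ∃ r : ℝ, 0 < r ∧ r ≤ 1 ∧ ENNReal.ofReal r ≤ δ := by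
  have h1 : min δ 1 ≠ ⊤ := ne_top_of_le_ne_top ENNReal.one_ne_top (min_le_right _ _)
  have h2 : 0 < min δ 1 := lt_min hδ one_pos
  refine ⟨(min δ 1).toReal, ENNReal.toReal_pos h2.ne' h1, ?_, ?_⟩
  · have := ENNReal.toReal_mono ENNReal.one_ne_top (min_le_right δ 1)
    simpa using this
  · rw [ENNReal.ofReal_toReal h1]
    exact min_le_left _ _

/-- A closed form gives a local cocycle. -/
theorem exists_cocycle [CompactSpace M] [IsManifold I ∞ M] [I.Boundaryless]
    {α : ∀ x : M, TangentSpace I x →L[ℝ] ℝ} (hα : ClosedForm I α) :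
    ∃ (r : ℝ) (β : M → M → ℝ), 0 < r ∧ r ≤ 1 ∧
      (∀ x y z, Dm x y < r → Dm y z < r → Dm x z < r → β x y + β y z = β x z) ∧
      ∀ x, ∃ (U : Set M) (F : M → ℝ), IsOpen U ∧ (∀ y, Dm x y < r → y ∈ U) ∧ ContMDiffOn I 𝓘(ℝ, ℝ) ∞ F U ∧
        (∀ y ∈ U, mfderiv I 𝓘(ℝ, ℝ) F y = α y) ∧ ∀ y, β x y = F y - F x := by
  choose U hUo hxU F hF hFα using hα
  obtain ⟨δ1, hδ1, hcov1⟩ := lebesgue_number_lemma_of_emetric (isCompact_univ (X := M)) hUo
    (fun x _ => mem_iUnion.2 ⟨x, hxU x⟩)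
  choose i hi using fun x : M => hcov1 x (mem_univ x)
  obtain ⟨r1, hr1, hr1', hr1δ⟩ := exists_real_le hδ1
  have hr4 : 0 < r1 / 4 := by positivity
  choose O hOo hqO hOsub hOc using fun q : M => exists_nhds_const (I := I) q (ENNReal.ofReal (r1 / 4))
    (ENNReal.ofReal_pos.2 hr4)
  obtain ⟨δ2, hδ2, hcov2⟩ := lebesgue_number_lemma_of_emetric (isCompact_univ (X := M)) hOo
    (fun x _ => mem_iUnion.2 ⟨x, hqO x⟩)
  obtain ⟨r2, hr2, hr2', hr2δ⟩ := exists_real_le hδ2
  set r := min (r1 / 4) r2 with hr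
  have hr0 : 0 < r := lt_min hr4 hr2
  have hra : r ≤ r1 / 4 := min_le_left _ _
  have hrb : r ≤ r2 := min_le_right _ _
  have hin : ∀ x y, edist y x < ENNReal.ofReal r1 → y ∈ U (i x) := by
    intro x y hxy
    exact hi x (lt_of_lt_of_le hxy hr1δ)
  refine ⟨r, fun x y => F (i x) y - F (i x) x, hr0, by linarith, fun x y z hxy hyz hxz => ?_, fun x =>
    ⟨U (i x), F (i x), hUo _, fun y hy => ?_, hF _, hFα _, fun y => rfl⟩⟩
  · obtain ⟨q, hq⟩ := hcov2 y (mem_univ y)
    have hy : y ∈ O q := hq (Metric.mem_eball_self hδ2)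
    have hz : z ∈ O q := by
      refine hq ?_
      rw [Metric.mem_eball, edist_comm]
      refine lt_of_lt_of_le (edist_lt_of_Dm_lt (by linarith) hyz) (le_trans ?_ hr2δ)
      exact ENNReal.ofReal_le_ofReal hrb
    have hwy : ∀ w ∈ O q, edist w y < ENNReal.ofReal (r1 / 2) := by
      intro w hw
      have h1 : edist w q < ENNReal.ofReal (r1 / 4) := hOsub q hw
      have h2 : edist y q < ENNReal.ofReal (r1 / 4) := hOsub q hy
      calc edist w y ≤ edist w q + edist q y := edist_triangle _ _ _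
        _ < ENNReal.ofReal (r1 / 4) + ENNReal.ofReal (r1 / 4) := by
            rw [edist_comm q y]
            exact ENNReal.add_lt_add h1 h2
        _ = ENNReal.ofReal (r1 / 2) := by
            rw [← ENNReal.ofReal_add hr4.le hr4.le]
            congr 1
            ring
    have hwx : ∀ w ∈ O q, edist w x < ENNReal.ofReal r1 := by
      intro w hw
      have h1 : edist y x < ENNReal.ofReal (r1 / 4) := by
        rw [edist_comm]
        exact lt_of_lt_of_le (edist_lt_of_Dm_lt (by linarith) hxy) (ENNReal.ofReal_le_ofReal hra)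
      calc edist w x ≤ edist w y + edist y x := edist_triangle _ _ _
        _ < ENNReal.ofReal (r1 / 2) + ENNReal.ofReal (r1 / 4) := ENNReal.add_lt_add (hwy w hw) h1
        _ ≤ ENNReal.ofReal r1 := by
            rw [← ENNReal.ofReal_add (by positivity) hr4.le]
            exact ENNReal.ofReal_le_ofReal (by linarith)
    have hwy' : ∀ w ∈ O q, edist w y < ENNReal.ofReal r1 := fun w hw =>
      lt_of_lt_of_le (hwy w hw) (ENNReal.ofReal_le_ofReal (by linarith))
    have hd : ∀ u w, w ∈ U u → MDifferentiableAt I 𝓘(ℝ, ℝ) (F u) w := fun u w hw =>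
      ((hF u).contMDiffAt ((hUo u).mem_nhds hw)).mdifferentiableAt (by simp)
    have hkey := hOc q (F (i y)) (F (i x)) (fun w hw => hd _ _ (hin y w (hwy' w hw)))
      (fun w hw => hd _ _ (hin x w (hwx w hw)))
      (fun w hw => by rw [hFα _ _ (hin y w (hwy' w hw)), hFα _ _ (hin x w (hwx w hw))]) y hy z hz
    show F (i x) y - F (i x) x + (F (i y) z - F (i y) y) = F (i x) z - F (i x) x
    rw [hkey]
    ring
  · refine hin x y ?_
    rw [edist_comm]
    exact lt_of_lt_of_le (edist_lt_of_Dm_lt (by linarith) hy) (ENNReal.ofReal_le_ofReal (by linarith))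

/-- The estimate for one closed form. -/
theorem main_single [CompactSpace M] [IsManifold I ∞ M] [I.Boundaryless]
    {α : ∀ x : M, TangentSpace I x →L[ℝ] ℝ} (hα : ClosedForm I α) :
    ∃ C > 0, ∃ ε0 > 0, ∀ ε : ℝ, 0 < ε → ε < ε0 → ∀ f f' : C(Circle, M), ContMDiff (𝓡 1) I 1 f' →
      f.Homotopic f' → ENNReal.ofReal |loopIntegral I α f'| ≤ ENNReal.ofReal C * gapEnergy ε f := by
  obtain ⟨r, β, hr0, hr1, hcoc, hprim⟩ := exists_cocycle hα
  obtain ⟨m, p, hp⟩ := exists_net (M := M) (ρ := r / 10) (by positivity)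
  obtain ⟨C, hC, ε0, hε0, hcore⟩ := core_bound isPD_Dm hr0 p hp β hcoc
  refine ⟨C, hC, ε0, hε0, fun ε hε hεε f f' hf' hH => ?_⟩
  obtain ⟨H⟩ := hH
  obtain ⟨n0, hn0⟩ := hcore ε hε hεε f (continuous_Dm f.continuous) f' (continuous_Dm f'.continuous)
    ⟨H, continuous_Dm H.continuous, fun z => H.apply_zero z, fun z => H.apply_one z⟩
  -- the integral is the sum for fine subdivisions
  have hpi := Real.pi_pos
  have huc := CompactSpace.uniformContinuous_of_continuous (continuous_Dm f'.continuous)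
  obtain ⟨δ, hδ, huc⟩ := Metric.uniformContinuous_iff.1 huc r hr0
  obtain ⟨n1, hn1⟩ := exists_pow_lt_of_lt_one (show 0 < δ / (2 * Real.pi) by positivity)
    (show (1 / 2 : ℝ) < 1 by norm_num)
  set n := max n0 n1 with hn
  have hn1' : 2 * Real.pi * (1 / 2 ^ n) < δ := by
    have : (1 : ℝ) / 2 ^ n < δ / (2 * Real.pi) := by
      calc (1 : ℝ) / 2 ^ n = (1 / 2) ^ n := by rw [div_pow, one_pow]
        _ ≤ (1 / 2) ^ n1 := pow_le_pow_of_le_one (by norm_num) (by norm_num) (le_max_right _ _)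
        _ < _ := hn1
    rw [lt_div_iff₀ (by positivity)] at this
    linarith
  have hγ : ContMDiff 𝓘(ℝ, ℝ) I 1 fun t : ℝ => f' (Circle.exp t) := hf'.comp contMDiff_circleExp
  have hsum : ∑ k ∈ Finset.range (2 ^ n), β (f' (Circle.exp (2 * Real.pi * ((k : ℝ) / 2 ^ n))))
      (f' (Circle.exp (2 * Real.pi * (((k : ℝ) + 1) / 2 ^ n)))) = loopIntegral I α f' := by
    have hpiece : ∀ k : ℕ, IntervalIntegrable
        (fun t => α (f' (Circle.exp t)) (mfderiv 𝓘(ℝ, ℝ) I (fun t : ℝ => f' (Circle.exp t)) t (1 : ℝ))) volume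
        (2 * Real.pi * ((k : ℝ) / 2 ^ n)) (2 * Real.pi * (((k : ℝ) + 1) / 2 ^ n)) ∧
        ∫ t in (2 * Real.pi * ((k : ℝ) / 2 ^ n))..(2 * Real.pi * (((k : ℝ) + 1) / 2 ^ n)),
          α (f' (Circle.exp t)) (mfderiv 𝓘(ℝ, ℝ) I (fun t : ℝ => f' (Circle.exp t)) t (1 : ℝ)) =
        β (f' (Circle.exp (2 * Real.pi * ((k : ℝ) / 2 ^ n)))) (f' (Circle.exp (2 * Real.pi * (((k : ℝ) + 1) / 2 ^ n)))) := by
      intro k
      obtain ⟨U, F, hU, hmem, hF, hFα, hβ⟩ := hprim (f' (Circle.exp (2 * Real.pi * ((k : ℝ) / 2 ^ n))))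
      have hle : 2 * Real.pi * ((k : ℝ) / 2 ^ n) ≤ 2 * Real.pi * (((k : ℝ) + 1) / 2 ^ n) := by
        gcongr
        linarith
      have hin : ∀ t ∈ uIcc (2 * Real.pi * ((k : ℝ) / 2 ^ n)) (2 * Real.pi * (((k : ℝ) + 1) / 2 ^ n)),
          f' (Circle.exp t) ∈ U := by
        intro t ht
        rw [uIcc_of_le hle] at ht
        refine hmem _ ?_
        have hd : dist (Circle.exp (2 * Real.pi * ((k : ℝ) / 2 ^ n))) (Circle.exp t) < δ := by
          rw [circle_dist]
          refine (chord_le _ _).trans_lt (lt_of_le_of_lt ?_ hn1')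
          have e1 : 2 * Real.pi * (((k : ℝ) + 1) / 2 ^ n) = 2 * Real.pi * ((k : ℝ) / 2 ^ n) + 2 * Real.pi * (1 / 2 ^ n) := by
            ring
          rw [e1] at ht
          rw [abs_le]
          have : 0 < 2 * Real.pi * (1 / 2 ^ n) := by positivity
          constructor <;> linarith [ht.1, ht.2]
        set a := Circle.exp (2 * Real.pi * ((k : ℝ) / 2 ^ n)) with ha
        have h3 := @huc (a, Circle.exp t) (a, a) (by
          rw [Prod.dist_eq, dist_self, dist_comm (Circle.exp t) a]; exact max_lt hδ hd)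
        simp only [isPD_Dm.self, Real.dist_eq, sub_zero] at h3
        exact (le_abs_self _).trans_lt h3
      have := integral_primitive (γ := fun t : ℝ => f' (Circle.exp t)) hγ hU hF hFα hin
      exact ⟨this.1, this.2.trans (hβ _).symm⟩
    have h1 := intervalIntegral.sum_integral_adjacent_intervals (n := 2 ^ n)
      (a := fun k : ℕ => 2 * Real.pi * ((k : ℝ) / 2 ^ n))
      (f := fun t => α (f' (Circle.exp t)) (mfderiv 𝓘(ℝ, ℝ) I (fun t : ℝ => f' (Circle.exp t)) t (1 : ℝ)))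
      (μ := volume) (fun k _ => by
        have := (hpiece k).1
        push_cast
        exact this)
    have hp2 : (0 : ℝ) < 2 ^ n := by positivity
    push_cast at h1
    rw [zero_div, mul_zero, div_self hp2.ne', mul_one] at h1
    rw [loopIntegral, ← h1]
    exact Finset.sum_congr rfl fun k _ => (hpiece k).2.symm
  have hfin := hn0 n (le_max_left _ _)
  rw [hsum, Real.norm_eq_abs] at hfin
  refine hfin.trans (circE_le hε f _ (fun z w hzw => ?_) hC.le)
  calc ENNReal.ofReal ε ≤ ENNReal.ofReal (Dm (f z) (f w)) := ENNReal.ofReal_le_ofReal hzw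
    _ = min (edist (f z) (f w)) 1 := ofReal_Dm _ _
    _ ≤ edist (f z) (f w) := min_le_left _ _

end

end Pool.Agent.Q74.Gap
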